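import Mathlib

namespace Helper57.GridSat

/-- The grid `[k]^d` with the coordinatewise order. -/
abbrev Grid (d k : ℕ) : Type := Fin d → Fin k

/-- `F` contains a strong (induced) copy of `P`. -/
def StrongCopy (P : Type) [PartialOrder P] {d k : ℕ} (F : Finset (Grid d k)) : Prop :=
  ∃ f : P → Grid d k, Function.Injective f ∧ (∀ p q : P, p ≤ q ↔ f p ≤ f q) ∧ ∀ p, f p ∈ F

/-- `F` is a strong `P`-saturated family in `[k]^d`. -/
def Saturated (P : Type) [PartialOrder P] {d k : ℕ} (F : Finset (Grid d k)) : Prop :=
  ¬ StrongCopy P F ∧ ∀ x : Grid d k, x ∉ F → StrongCopy P (insert x F)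

/-- The strong saturation number `sat^*([k]^d, P)`. -/
noncomputable def sat (P : Type) [PartialOrder P] (d k : ℕ) : ℕ :=
  sInf {n : ℕ | ∃ F : Finset (Grid d k), Saturated P F ∧ F.card = n}

/-- `f` and `g` have the same order of magnitude. -/
def SameOrder (f g : ℕ → ℕ) : Prop :=
  ∃ a b : ℕ, ∀ k : ℕ, 1 ≤ k → g k ≤ a * f k ∧ f k ≤ b * g k

section Basic

variable {P : Type} [PartialOrder P] {d k : ℕ}

theorem StrongCopy.mono {F G : Finset (Grid d k)} (h : StrongCopy P F) (hFG : F ⊆ G) :
    StrongCopy P G := by
  obtain ⟨f, h1, h2, h3⟩ := h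
  exact ⟨f, h1, h2, fun p => hFG (h3 p)⟩

theorem StrongCopy.card_le [Fintype P] {F : Finset (Grid d k)} (h : StrongCopy P F) :
    Fintype.card P ≤ F.card := by
  classical
  obtain ⟨f, h1, h2, h3⟩ := h
  rw [← Finset.card_univ, ← Finset.card_image_of_injective _ h1]
  apply Finset.card_le_card
  intro y hy
  rw [Finset.mem_image] at hy
  obtain ⟨p, -, rfl⟩ := hy
  exact h3 p

theorem exists_saturated_extension {F₀ : Finset (Grid d k)} (h : ¬ StrongCopy P F₀) :
    ∃ F : Finset (Grid d k), F₀ ⊆ F ∧ Saturated P F := by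
  classical
  set S : Finset (Finset (Grid d k)) :=
    Finset.univ.filter (fun F => F₀ ⊆ F ∧ ¬ StrongCopy P F) with hS
  have hne : S.Nonempty := ⟨F₀, by simp [hS, h]⟩
  obtain ⟨F, hF, hmax⟩ := Finset.exists_max_image S Finset.card hne
  rw [hS, Finset.mem_filter] at hF
  refine ⟨F, hF.2.1, hF.2.2, ?_⟩
  intro x hx
  by_contra hcon
  have h1 : insert x F ∈ S := by
    rw [hS, Finset.mem_filter]
    exact ⟨Finset.mem_univ _, hF.2.1.trans (Finset.subset_insert _ _), hcon⟩
  have h2 := hmax _ h1
  rw [Finset.card_insert_of_notMem hx] at h2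
  omega

theorem not_strongCopy_empty [Nonempty P] : ¬ StrongCopy P (∅ : Finset (Grid d k)) := by
  rintro ⟨f, -, -, h3⟩
  obtain ⟨p⟩ := ‹Nonempty P›
  exact absurd (h3 p) (Finset.notMem_empty _)

theorem sat_spec (P : Type) [PartialOrder P] [Nonempty P] (d k : ℕ) :
    ∃ F : Finset (Grid d k), Saturated P F ∧ F.card = sat P d k := by
  have hne : {n : ℕ | ∃ F : Finset (Grid d k), Saturated P F ∧ F.card = n}.Nonempty := by
    obtain ⟨F, -, hF⟩ := exists_saturated_extension
      (not_strongCopy_empty : ¬ StrongCopy P (∅ : Finset (Grid d k)))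
    exact ⟨F.card, F, hF, rfl⟩
  exact Nat.sInf_mem hne

theorem sat_le {F : Finset (Grid d k)} (h : Saturated P F) : sat P d k ≤ F.card :=
  Nat.sInf_le ⟨F, h, rfl⟩

theorem card_le_pow (F : Finset (Grid d k)) : F.card ≤ k ^ d := by
  have := Finset.card_le_univ F
  simpa using this

theorem sat_le_pow (P : Type) [PartialOrder P] [Nonempty P] (d k : ℕ) : sat P d k ≤ k ^ d := by
  obtain ⟨F, -, hF⟩ := sat_spec P d k
  rw [← hF]
  exact card_le_pow F

/-- If no copy of `P` fits into `[k]^d`, then the saturation number is `k^d`. -/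
theorem sat_eq_pow [Nonempty P] (h : ¬ StrongCopy P (Finset.univ : Finset (Grid d k))) :
    sat P d k = k ^ d := by
  classical
  obtain ⟨F, hF, hc⟩ := sat_spec P d k
  have hu : F = Finset.univ := by
    rw [Finset.eq_univ_iff_forall]
    intro x
    by_contra hx
    exact h ((hF.2 x hx).mono (Finset.subset_univ _))
  rw [← hc, hu]
  simp

theorem one_le_sat [Fintype P] [Nontrivial P] (hk : 1 ≤ k) : 1 ≤ sat P d k := by
  classical
  obtain ⟨F, hF, hc⟩ := sat_spec P d k
  rw [← hc, Nat.one_le_iff_ne_zero, Ne, Finset.card_eq_zero]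
  rintro rfl
  have h1 := (hF.2 (fun _ => ⟨0, hk⟩) (Finset.notMem_empty _)).card_le
  have h2 : 1 < Fintype.card P := Fintype.one_lt_card
  have h3 : (insert (fun _ => ⟨0, hk⟩) (∅ : Finset (Grid d k))).card = 1 := by simp
  omega

end Basic

section Transfer

/-- A saturated family can be moved to another grid along a pair of maps which preserve
and reflect the comparabilities with its elements. -/
theorem Saturated.transfer {P : Type} [PartialOrder P] {d k l : ℕ}
    {F : Finset (Grid d k)} (hF : Saturated P F)
    (φ : Grid d k → Grid d l) (ψ : Grid d l → Grid d k)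
    (ha : ∀ z ∈ F, ψ (φ z) = z)
    (hb : ∀ z ∈ F, ∀ x, φ z ≤ x ↔ z ≤ ψ x)
    (hc : ∀ z ∈ F, ∀ x, x ≤ φ z ↔ ψ x ≤ z)
    (hd : ∀ x, ψ x ∈ F → φ (ψ x) = x) :
    Saturated P (F.image φ) := by
  classical
  constructor
  · rintro ⟨f, h1, h2, h3⟩
    have h4 : ∀ p, ψ (f p) ∈ F ∧ φ (ψ (f p)) = f p := by
      intro p
      obtain ⟨z, hz, hz2⟩ := Finset.mem_image.mp (h3 p)
      rw [← hz2, ha z hz]
      exact ⟨hz, rfl⟩
    apply hF.1
    refine ⟨fun p => ψ (f p), ?_, ?_, fun p => (h4 p).1⟩
    · intro p q hpq
      apply h1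
      rw [← (h4 p).2, ← (h4 q).2]
      exact congrArg φ hpq
    · intro p q
      rw [h2, ← hb _ (h4 p).1, (h4 p).2]
  · intro x hx
    have hy : ψ x ∉ F := by
      intro h
      apply hx
      rw [← hd x h]
      exact Finset.mem_image_of_mem _ h
    obtain ⟨f, h1, h2, h3⟩ := hF.2 (ψ x) hy
    -- the new copy
    have key : ∀ p, (f p = ψ x) ∨ (f p ∈ F ∧ f p ≠ ψ x) := by
      intro p
      by_cases h : f p = ψ x
      · exact Or.inl h
      · rcases Finset.mem_insert.mp (h3 p) with h' | h'
        · exact absurd h' h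
        · exact Or.inr ⟨h', h⟩
    refine ⟨fun p => if f p = ψ x then x else φ (f p), ?_, ?_, ?_⟩
    · intro p q hpq
      apply h1
      simp only at hpq
      rcases key p with hp | ⟨hp, hp'⟩
      · rcases key q with hq | ⟨hq, hq'⟩
        · rw [hp, hq]
        · rw [if_pos hp, if_neg hq'] at hpq
          exfalso
          apply hx
          rw [hpq]
          exact Finset.mem_image_of_mem _ hq
      · rcases key q with hq | ⟨hq, hq'⟩
        · rw [if_neg hp', if_pos hq] at hpq
          exfalso
          apply hx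
          rw [← hpq]
          exact Finset.mem_image_of_mem _ hp
        · rw [if_neg hp', if_neg hq'] at hpq
          rw [← ha _ hp, ← ha _ hq, hpq]
    · intro p q
      simp only
      rw [h2]
      rcases key p with hp | ⟨hp, hp'⟩
      · rcases key q with hq | ⟨hq, hq'⟩
        · rw [if_pos hp, if_pos hq, hp, hq]
          simp
        · rw [if_pos hp, if_neg hq', hc _ hq, hp]
      · rcases key q with hq | ⟨hq, hq'⟩
        · rw [if_neg hp', if_pos hq, hb _ hp, hq]
        · rw [if_neg hp', if_neg hq', hb _ hp, ha _ hq]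
    · intro p
      simp only
      rcases key p with hp | ⟨hp, hp'⟩
      · rw [if_pos hp]
        exact Finset.mem_insert_self _ _
      · rw [if_neg hp']
        exact Finset.mem_insert_of_mem (Finset.mem_image_of_mem _ hp)

/-- If a saturated family in `[k]^d` leaves a value unused in every coordinate, it can be
stretched to a saturated family of the same size in every larger grid. -/
theorem stretch {P : Type} [PartialOrder P] [Nonempty P] {d k l : ℕ} (hkl : k ≤ l)
    {F : Finset (Grid d k)} (hF : Saturated P F) (c : Fin d → Fin k)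
    (hc : ∀ i, ∀ z ∈ F, z i ≠ c i) : sat P d l ≤ F.card := by
  classical
  set D := l - k with hD
  have hDl : k + D = l := by omega
  let φ : Grid d k → Grid d l := fun z i =>
    ⟨if (z i).val < (c i).val then (z i).val else (z i).val + D, by
      have h1 := (z i).isLt
      split_ifs <;> omega⟩
  let ψ : Grid d l → Grid d k := fun x i =>
    ⟨if (x i).val < (c i).val then (x i).val
      else if (x i).val ≤ (c i).val + D then (c i).val else (x i).val - D, by
      have h1 := (x i).isLt
      have h2 := (c i).isLt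
      split_ifs <;> omega⟩
  have hφ : ∀ z i, (φ z i).val = if (z i).val < (c i).val then (z i).val else (z i).val + D :=
    fun _ _ => rfl
  have hψ : ∀ x i, (ψ x i).val = if (x i).val < (c i).val then (x i).val
      else if (x i).val ≤ (c i).val + D then (c i).val else (x i).val - D := fun _ _ => rfl
  have hne : ∀ z ∈ F, ∀ i, (z i).val ≠ (c i).val := by
    intro z hz i h
    exact hc i z hz (Fin.ext h)
  have hsat : Saturated P (F.image φ) := by
    apply hF.transfer φ ψ
    · intro z hz
      funext i
      apply Fin.ext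
      rw [hψ, hφ]
      have := hne z hz i
      split_ifs <;> omega
    · intro z hz x
      rw [Pi.le_def, Pi.le_def]
      apply forall_congr'
      intro i
      rw [Fin.le_def, Fin.le_def, hφ, hψ]
      have := hne z hz i
      split_ifs <;> omega
    · intro z hz x
      rw [Pi.le_def, Pi.le_def]
      apply forall_congr'
      intro i
      rw [Fin.le_def, Fin.le_def, hφ, hψ]
      have := hne z hz i
      split_ifs <;> omega
    · intro x hx
      funext i
      apply Fin.ext
      have := hne _ hx i
      rw [hψ] at this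
      rw [hφ, hψ]
      split_ifs at this ⊢ <;> omega
  exact (sat_le hsat).trans Finset.card_image_le

/-- The saturation number is either bounded or at least `k` for all `k`. -/
theorem bounded_or_linear (P : Type) [PartialOrder P] [Nonempty P] (d : ℕ) :
    (∃ C : ℕ, ∀ k, sat P d k ≤ C) ∨ ∀ k, k ≤ sat P d k := by
  classical
  by_cases h : ∃ k, sat P d k < k
  · left
    obtain ⟨k, hk⟩ := h
    obtain ⟨F, hF, hFc⟩ := sat_spec P d k
    have hun : ∀ i : Fin d, ∃ c : Fin k, ∀ z ∈ F, z i ≠ c := by
      intro i
      by_contra hcon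
      push Not at hcon
      have h1 : (Finset.univ : Finset (Fin k)) ⊆ F.image (fun z => z i) := by
        intro c _
        obtain ⟨z, hz, hz2⟩ := hcon c
        exact Finset.mem_image.mpr ⟨z, hz, hz2⟩
      have h2 := (Finset.card_le_card h1).trans Finset.card_image_le
      rw [Finset.card_univ, Fintype.card_fin] at h2
      omega
    choose c hc using hun
    refine ⟨F.card + k ^ d, fun l => ?_⟩
    rcases le_total k l with hkl | hkl
    · exact (stretch hkl hF c hc).trans (Nat.le_add_right _ _)
    · exact (sat_le_pow P d l).trans ((Nat.pow_le_pow_left hkl d).trans (Nat.le_add_left _ _))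
  · right
    push Not at h
    exact h

end Transfer

end Helper57.GridSat
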