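import Pool.Agent.Helper57.GridSat.Trap

namespace Helper57.GridSat

section Transfer

/-- The coordinates of a grid point as natural numbers. -/
def vl {d k : ℕ} (x : Grid d k) : Fin d → ℕ := fun l => (x l).val

/-- A grid point with given coordinates. -/
def toG {d k : ℕ} (y : Fin d → ℕ) (h : ∀ l, y l < k) : Grid d k := fun l => ⟨y l, h l⟩

theorem vl_le {d k : ℕ} {x y : Grid d k} : vl x ≤ vl y ↔ x ≤ y := Iff.rfl

theorem vl_lt {d k : ℕ} {x y : Grid d k} : vl x < vl y ↔ x < y := by
  rw [lt_iff_le_not_ge, lt_iff_le_not_ge, vl_le, vl_le]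

theorem isCopy_vl {Q R : Type} [PartialOrder Q] [PartialOrder R] {d k : ℕ}
    {gb : Q → Grid d k} {rb : Grid d k} {gt : R → Grid d k} {rt : Grid d k} :
    IsCopy (fun s => vl (gb s)) (vl rb) (fun s => vl (gt s)) (vl rt) ↔ IsCopy gb rb gt rt := by
  constructor
  · intro h
    exact ⟨fun s s' => h.hgb s s', fun s s' => h.hgt s s', fun s => h.hb1 s, fun s => h.hb2 s,
      fun s => h.ht1 s, fun s => h.ht2 s, fun s s' => vl_lt.mp (h.h1 s s'),
      fun s => vl_lt.mp (h.h2 s), fun s => vl_lt.mp (h.h3 s), vl_lt.mp h.h4⟩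
  · intro h
    exact ⟨fun s s' => h.hgb s s', fun s s' => h.hgt s s', fun s => h.hb1 s, fun s => h.hb2 s,
      fun s => h.ht1 s, fun s => h.ht2 s, fun s s' => vl_lt.mpr (h.h1 s s'),
      fun s => vl_lt.mpr (h.h2 s), fun s => vl_lt.mpr (h.h3 s), vl_lt.mpr h.h4⟩

end Transfer

section Eval

variable {d n k : ℕ}

theorem kap_mem {e : Fin n → Fin d} {s : Finset (Fin n)} {i : Fin n} (hi : i ∈ s) :
    kap e s (e i) = 5 := if_pos ⟨i, hi, rfl⟩

theorem kap_notMem {e : Fin n → Fin d} (he : Function.Injective e) {s : Finset (Fin n)}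
    {i : Fin n} (hi : i ∉ s) : kap e s (e i) = 1 := by
  unfold kap
  rw [if_neg, if_pos ⟨i, rfl⟩]
  rintro ⟨j, hj, hji⟩
  exact hi (he hji ▸ hj)

theorem kap_range {e : Fin n → Fin d} {s : Finset (Fin n)} {l : Fin d} (hl : ∀ i, e i ≠ l) :
    kap e s l = 0 := by
  unfold kap
  rw [if_neg, if_neg]
  · rintro ⟨i, hi⟩
    exact hl i hi
  · rintro ⟨i, -, hi⟩
    exact hl i hi

theorem kap_le {e : Fin n → Fin d} {s : Finset (Fin n)} {l : Fin d} : kap e s l ≤ 5 := by
  unfold kap
  split_ifs <;> omega

theorem cen_apply {e : Fin n → Fin d} {i : Fin n} : cen e (e i) = 2 := if_pos ⟨i, rfl⟩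

theorem cen_range {e : Fin n → Fin d} {l : Fin d} (hl : ∀ i, e i ≠ l) : cen e l = 0 := by
  unfold cen
  rw [if_neg]
  rintro ⟨i, hi⟩
  exact hl i hi

theorem cen_le {e : Fin n → Fin d} {l : Fin d} : cen e l ≤ 5 := by
  unfold cen
  split_ifs <;> omega

theorem kap_le_iff {e : Fin n → Fin d} (he : Function.Injective e) (s s' : Mid n) :
    s ≤ s' ↔ kap e s.1 ≤ kap e s'.1 := by
  constructor
  · intro h l
    by_cases hl : ∃ i, e i = l
    · obtain ⟨i, rfl⟩ := hl
      show kap e s.1 (e i) ≤ kap e s'.1 (e i)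
      by_cases hi : i ∈ s.1
      · rw [kap_mem hi, kap_mem (h hi)]
      · rw [kap_notMem he hi]
        by_cases hi' : i ∈ s'.1
        · rw [kap_mem hi']
          omega
        · rw [kap_notMem he hi']
    · push Not at hl
      show kap e s.1 l ≤ kap e s'.1 l
      rw [kap_range hl]
      exact Nat.zero_le _
  · intro h i hi
    by_contra hi'
    have h1 : kap e s.1 (e i) ≤ kap e s'.1 (e i) := h (e i)
    rw [kap_mem hi, kap_notMem he hi'] at h1
    omega

theorem kap_not_le_cen {e : Fin n → Fin d} (s : Mid n) : ¬ kap e s.1 ≤ cen e := by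
  intro h
  obtain ⟨i, hi⟩ := s.2.1
  have h1 : kap e s.1 (e i) ≤ cen e (e i) := h (e i)
  rw [kap_mem hi, cen_apply] at h1
  omega

theorem cen_not_le_kap {e : Fin n → Fin d} (he : Function.Injective e) (s : Mid n) :
    ¬ cen e ≤ kap e s.1 := by
  intro h
  have h2 : ∃ i, i ∉ s.1 := by
    by_contra hcon
    push Not at hcon
    exact s.2.2 (Finset.eq_univ_iff_forall.mpr hcon)
  obtain ⟨i, hi⟩ := h2
  have h1 : cen e (e i) ≤ kap e s.1 (e i) := h (e i)
  rw [kap_notMem he hi, cen_apply] at h1
  omega

theorem card_compl_range {e : Fin n → Fin d} (he : Function.Injective e) :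
    (Finset.univ.filter (fun l => ∀ i, e i ≠ l)).card = d - n := by
  classical
  have h1 : (Finset.univ.filter (fun l => ∀ i, e i ≠ l)) = (Finset.univ.image e)ᶜ := by
    ext l
    simp
  rw [h1, Finset.card_compl, Finset.card_image_of_injective _ he]
  simp

theorem KP_kap {e : Fin n → Fin d} (he : Function.Injective e) (s : Mid n) :
    KP n (kap e s.1) := by
  constructor
  · rw [← card_compl_range he]
    congr 1
    unfold zs
    apply Finset.filter_congr
    intro l _
    constructor
    · rintro h i rfl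
      by_cases hi : i ∈ s.1
      · rw [kap_mem hi] at h
        omega
      · rw [kap_notMem he hi] at h
        omega
    · intro h
      exact kap_range h
  · right
    refine ⟨?_, ?_, ?_⟩
    · intro l
      unfold kap
      split_ifs <;> omega
    · have h2 : ∃ i, i ∉ s.1 := by
        by_contra hcon
        push Not at hcon
        exact s.2.2 (Finset.eq_univ_iff_forall.mpr hcon)
      obtain ⟨i, hi⟩ := h2
      exact ⟨e i, kap_notMem he hi⟩
    · obtain ⟨i, hi⟩ := s.2.1
      exact ⟨e i, kap_mem hi⟩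

theorem KP_cen {e : Fin n → Fin d} (he : Function.Injective e) : KP n (cen e) := by
  constructor
  · rw [← card_compl_range he]
    congr 1
    unfold zs
    apply Finset.filter_congr
    intro l _
    constructor
    · rintro h i rfl
      rw [cen_apply] at h
      omega
    · intro h
      exact cen_range h
  · left
    intro l
    unfold cen
    split_ifs <;> omega

theorem eps_le_iff {v : ℕ} (s s' : Finset (Fin d)) : s ≤ s' ↔ eps k v s ≤ eps k v s' := by
  constructor
  · intro h l
    show eps k v s l ≤ eps k v s' l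
    unfold eps
    apply Nat.add_le_add_left
    by_cases hl : l ∈ s
    · rw [if_pos hl, if_pos (h hl)]
    · rw [if_neg hl]
      exact Nat.zero_le _
  · intro h l hl
    by_contra hl'
    have h1 : eps k v s l ≤ eps k v s' l := h l
    unfold eps at h1
    rw [if_pos hl, if_neg hl'] at h1
    omega

theorem del_le_iff (hnd : n ≤ d) {A : Finset (Fin d)} (s s' : Mid n) :
    s ≤ s' ↔ del k A s.1 ≤ del k A s'.1 := by
  constructor
  · intro h l
    show del k A s.1 l ≤ del k A s'.1 l
    unfold del
    apply Nat.add_le_add_left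
    by_cases hl : ∃ i ∈ s.1, i.val = l.val
    · obtain ⟨i, hi, hil⟩ := hl
      rw [if_pos ⟨i, hi, hil⟩, if_pos ⟨i, h hi, hil⟩]
    · rw [if_neg hl]
      exact Nat.zero_le _
  · intro h i hi
    by_contra hi'
    have h1 : del k A s.1 ⟨i.val, lt_of_lt_of_le i.isLt hnd⟩ ≤
        del k A s'.1 ⟨i.val, lt_of_lt_of_le i.isLt hnd⟩ := h _
    unfold del at h1
    rw [if_pos (⟨i, hi, rfl⟩ : ∃ j ∈ s.1, j.val = i.val)] at h1
    have h2 : ¬ ∃ j ∈ s'.1, j.val = i.val := by
      rintro ⟨j, hj, hji⟩
      exact hi' (Fin.ext hji ▸ hj)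
    rw [if_neg h2] at h1
    omega

end Eval

section Cover

variable {d n k : ℕ}

/-- The indices of the low or high coordinates of a point. -/
def extremes (k : ℕ) (y : Fin d → ℕ) : Finset (Fin d) :=
  Finset.univ.filter (fun l => y l < 2 * d + 6 ∨ k - (2 * d + 6) ≤ y l)

theorem lt_of_le_of_exists {y z : Fin d → ℕ} (h : y ≤ z) (h' : ∃ l, y l < z l) : y < z := by
  rw [lt_iff_le_not_ge]
  refine ⟨h, fun h2 => ?_⟩
  obtain ⟨l, hl⟩ := h'
  have : z l ≤ y l := h2 l
  omega

/-- First way to complete a point: it is the single point of the upper layer. -/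
theorem cover_one (hk : 4 * d + 12 ≤ k) {y : Fin d → ℕ} {e : Fin n → Fin d}
    (he : Function.Injective e) (hey : ∀ i, 5 ≤ y (e i)) {i j : Fin d} (hij : i < j)
    (hi : 2 * d + 6 ≤ y i ∧ y i < k - (2 * d + 6)) (hj : 2 * d + 6 ≤ y j ∧ y j < k - (2 * d + 6)) :
    IsCopy (fun s : Mid n => kap e s.1) (cen e) (fun s => eps k j.val s) y := by
  have hjd := j.isLt
  have hji : i.val < j.val := hij
  refine ⟨kap_le_iff he, eps_le_iff, kap_not_le_cen, cen_not_le_kap he, ?_, ?_, ?_, ?_, ?_, ?_⟩
  · intro s h
    have h1 : eps k j.val s j ≤ y j := h j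
    unfold eps at h1
    split_ifs at h1 <;> omega
  · intro s h
    have h1 : y i ≤ eps k j.val s i := h i
    unfold eps at h1
    split_ifs at h1 <;> omega
  · intro s s'
    apply lt_of_le_of_exists
    · intro l
      have h1 := (eps_bounds (s := s') (l := l) hk hjd).1
      have h2 := kap_le (e := e) (s := s.1) (l := l)
      show kap e s.1 l ≤ eps k j.val s' l
      omega
    · refine ⟨j, ?_⟩
      have h1 := (eps_bounds (s := s') (l := j) hk hjd).1
      have h2 := kap_le (e := e) (s := s.1) (l := j)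
      omega
  · intro s
    apply lt_of_le_of_exists
    · intro l
      show kap e s.1 l ≤ y l
      by_cases hl : ∃ i, e i = l
      · obtain ⟨i, rfl⟩ := hl
        exact kap_le.trans (hey i)
      · push Not at hl
        rw [kap_range hl]
        exact Nat.zero_le _
    · refine ⟨j, ?_⟩
      have h2 := kap_le (e := e) (s := s.1) (l := j)
      omega
  · intro s'
    apply lt_of_le_of_exists
    · intro l
      have h1 := (eps_bounds (s := s') (l := l) hk hjd).1
      have h2 := cen_le (e := e) (l := l)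
      show cen e l ≤ eps k j.val s' l
      omega
    · refine ⟨j, ?_⟩
      have h1 := (eps_bounds (s := s') (l := j) hk hjd).1
      have h2 := cen_le (e := e) (l := j)
      omega
  · apply lt_of_le_of_exists
    · intro l
      show cen e l ≤ y l
      by_cases hl : ∃ i, e i = l
      · obtain ⟨i, rfl⟩ := hl
        exact cen_le.trans (hey i)
      · push Not at hl
        rw [cen_range hl]
        exact Nat.zero_le _
    · refine ⟨j, ?_⟩
      have h2 := cen_le (e := e) (l := j)
      omega

/-- Second way to complete a point: it is the single point of the lower layer. -/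
theorem cover_two (hnd : n ≤ d) (hk : 4 * d + 12 ≤ k) {y : Fin d → ℕ} {A : Finset (Fin d)}
    (hA1 : ∀ l ∈ A, y l ≤ 4)
    (hA2 : ∀ l, l ∉ A → 2 * d + 6 ≤ y l ∧ y l < k - (2 * d + 6))
    (hA3 : A.Nonempty) (hA4 : A.card + 2 ≤ d) :
    IsCopy (fun s : Mid n => del k A s.1) y (fun s => eps k 0 s) (tau k A) := by
  classical
  -- two elements outside `A`, the first one minimal
  have h1 : 1 < (Aᶜ).card := by
    rw [Finset.card_compl, Fintype.card_fin]
    omega
  have hne : (Aᶜ).Nonempty := Finset.card_pos.mp (by omega)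
  obtain ⟨p, hp, hpmin⟩ := (Aᶜ).exists_min_image id hne
  obtain ⟨q, hq, hqp⟩ := Finset.exists_mem_ne h1 p
  have hpA : p ∉ A := Finset.mem_compl.mp hp
  have hqA : q ∉ A := Finset.mem_compl.mp hq
  have hp1 : ∀ i < p, i ∈ A := by
    intro i hi
    by_contra hcon
    have := hpmin i (Finset.mem_compl.mpr hcon)
    exact absurd hi (not_lt_of_ge this)
  have hq1 : ¬ ∀ i < q, i ∈ A := by
    intro hcon
    exact hpA (hcon p (lt_of_le_of_ne (hpmin q hq) (Ne.symm hqp)))
  obtain ⟨a, ha⟩ := hA3
  have hd0 : 0 < d := by omega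
  have hdel : ∀ (s : Mid n) l, del k A s.1 l ≤ k - 4 := by
    intro s l
    by_cases hl : l ∈ A
    · have := (del_mem (k := k) (s := s.1) hl).2
      omega
    · exact (del_notMem hk hl).2
  refine ⟨del_le_iff hnd, eps_le_iff, ?_, ?_, ?_, ?_, ?_, ?_, ?_, ?_⟩
  · intro s h
    have h2 : del k A s.1 q ≤ y q := h q
    have h3 := (hA2 q hqA).2
    unfold del at h2
    rw [if_neg hqA, if_neg hq1] at h2
    omega
  · intro s h
    have h2 : y p ≤ del k A s.1 p := h p
    have h3 := (hA2 p hpA).1
    unfold del at h2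
    rw [if_neg hpA, if_pos hp1] at h2
    split_ifs at h2 <;> omega
  · intro s h
    have h2 : eps k 0 s a ≤ tau k A a := h a
    have h3 := (eps_bounds (s := s) (l := a) hk hd0).1
    rw [tau_mem ha] at h2
    omega
  · intro s h
    have h2 : tau k A p ≤ eps k 0 s p := h p
    have h3 := (eps_bounds (s := s) (l := p) hk hd0).2
    rw [tau_notMem hpA] at h2
    omega
  · intro s s'
    apply lt_of_le_of_exists
    · intro l
      show del k A s.1 l ≤ eps k 0 s' l
      have h2 := hdel s l
      unfold eps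
      rw [if_neg (Nat.not_lt_zero _)]
      omega
    · refine ⟨p, ?_⟩
      have h2 := hdel s p
      show del k A s.1 p < eps k 0 s' p
      unfold eps
      rw [if_neg (Nat.not_lt_zero _)]
      omega
  · intro s
    apply lt_of_le_of_exists
    · intro l
      show del k A s.1 l ≤ tau k A l
      by_cases hl : l ∈ A
      · rw [tau_mem hl]
        exact (del_mem hl).2
      · rw [tau_notMem hl]
        have := hdel s l
        omega
    · refine ⟨p, ?_⟩
      rw [tau_notMem hpA]
      have := hdel s p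
      show del k A s.1 p < k - 1
      omega
  · intro s
    apply lt_of_le_of_exists
    · intro l
      show y l ≤ eps k 0 s l
      unfold eps
      rw [if_neg (Nat.not_lt_zero _)]
      by_cases hl : l ∈ A
      · have := hA1 l hl
        omega
      · have := (hA2 l hl).2
        omega
    · refine ⟨p, ?_⟩
      show y p < eps k 0 s p
      have := (hA2 p hpA).2
      unfold eps
      rw [if_neg (Nat.not_lt_zero _)]
      omega
  · apply lt_of_le_of_exists
    · intro l
      show y l ≤ tau k A l
      by_cases hl : l ∈ A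
      · rw [tau_mem hl]
        exact hA1 l hl
      · rw [tau_notMem hl]
        have := (hA2 l hl).2
        omega
    · refine ⟨p, ?_⟩
      rw [tau_notMem hpA]
      have := (hA2 p hpA).2
      omega

/-- The template as a family in the grid. -/
noncomputable def tmpl (d n k : ℕ) : Finset (Grid d k) := by
  classical
  exact Finset.univ.filter (fun x : Grid d k => InT n k (vl x))

theorem mem_tmpl {x : Grid d k} : x ∈ tmpl d n k ↔ InT n k (vl x) := by
  classical
  unfold tmpl
  simp

theorem tmpl_free (hn : 3 ≤ n) (hnd : n ≤ d) (hk : 4 * d + 12 ≤ k) :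
    ¬ StrongCopy (TwoLayer (Mid n) (Finset (Fin d))) (tmpl d n k) := by
  intro h
  obtain ⟨gb, rb, gt, rt, hc, m1, m2, m3, m4, -⟩ := h.isCopy
  exact template_free hn hnd hk (isCopy_vl.mpr hc) (fun s => mem_tmpl.mp (m1 s))
    (mem_tmpl.mp m2) (fun s => mem_tmpl.mp (m3 s)) (mem_tmpl.mp m4)

theorem toG_mem {y : Fin d → ℕ} (h : ∀ l, y l < k) (hy : InT n k y) :
    toG y h ∈ tmpl d n k := mem_tmpl.mpr hy

/-- Every point with at most `d - n + 1` low or high coordinates is completed by the
template. -/
theorem tmpl_cover (hn : 3 ≤ n) (hnd : n ≤ d) (hk : 4 * d + 12 ≤ k) (x : Grid d k)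
    (hx : (extremes k (vl x)).card ≤ d - n + 1) :
    StrongCopy (TwoLayer (Mid n) (Finset (Fin d))) (insert x (tmpl d n k)) := by
  classical
  set y := vl x with hy
  have hyk : ∀ l, y l < k := fun l => (x l).isLt
  set A : Finset (Fin d) := Finset.univ.filter (fun l => y l < 5) with hA
  have hAsub : A ⊆ extremes k y := by
    intro l hl
    rw [hA, Finset.mem_filter] at hl
    unfold extremes
    rw [Finset.mem_filter]
    exact ⟨Finset.mem_univ _, Or.inl (by omega)⟩
  have hgen : ∀ l, l ∉ extremes k y → 2 * d + 6 ≤ y l ∧ y l < k - (2 * d + 6) := by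
    intro l hl
    unfold extremes at hl
    rw [Finset.mem_filter] at hl
    push Not at hl
    exact hl (Finset.mem_univ _)
  rcases Nat.lt_or_ge (d - n) A.card with hAc | hAc
  · -- second way
    have hAc' : A.card = d - n + 1 := by
      have := Finset.card_le_card hAsub
      omega
    have hAeq : A = extremes k y := Finset.eq_of_subset_of_card_le hAsub (by omega)
    have h1 : ∀ l ∈ A, y l ≤ 4 := by
      intro l hl
      rw [hA, Finset.mem_filter] at hl
      omega
    have h2 : ∀ l, l ∉ A → 2 * d + 6 ≤ y l ∧ y l < k - (2 * d + 6) := by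
      intro l hl
      rw [hAeq] at hl
      exact hgen l hl
    have hc := cover_two (n := n) hnd hk h1 h2 (Finset.card_pos.mp (by omega)) (by omega)
    have hT1 : ∀ s : Mid n, InT n k (del k A s.1) := fun s => Or.inr (Or.inl ⟨A, hAc', s, rfl⟩)
    have hT2 : ∀ s, InT n k (eps (d := d) k 0 s) :=
      fun s => Or.inr (Or.inr (Or.inl ⟨0, by omega, s, rfl⟩))
    have hT3 : InT n k (tau k A) := Or.inr (Or.inr (Or.inr ⟨A, hAc', rfl⟩))
    have hc' : IsCopy (fun s : Mid n => toG (del k A s.1) (fun l => ((hT1 s).extreme hk l).2)) x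
        (fun s => toG (eps (d := d) k 0 s) (fun l => ((hT2 s).extreme hk l).2))
        (toG (tau k A) (fun l => (hT3.extreme hk l).2)) := isCopy_vl.mp hc
    exact hc'.strongCopy (fun s => Finset.mem_insert_of_mem (toG_mem _ (hT1 s)))
      (Finset.mem_insert_self _ _) (fun s => Finset.mem_insert_of_mem (toG_mem _ (hT2 s)))
      (Finset.mem_insert_of_mem (toG_mem _ hT3))
  · -- first way
    have h1 : n ≤ (Aᶜ).card := by
      rw [Finset.card_compl, Fintype.card_fin]
      omega
    obtain ⟨S, hSA, hSc⟩ := Finset.exists_subset_card_eq h1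
    let e : Fin n → Fin d := S.orderEmbOfFin hSc
    have he : Function.Injective e := (S.orderEmbOfFin hSc).injective
    have hey : ∀ i, 5 ≤ y (e i) := by
      intro i
      have h2 : e i ∈ Aᶜ := hSA (Finset.orderEmbOfFin_mem S hSc i)
      rw [Finset.mem_compl, hA, Finset.mem_filter] at h2
      push Not at h2
      exact h2 (Finset.mem_univ _)
    have h2 : 1 < ((extremes k y)ᶜ).card := by
      rw [Finset.card_compl, Fintype.card_fin]
      omega
    obtain ⟨a, ha, b, hb, hab⟩ := Finset.one_lt_card.mp h2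
    have h3 : ∃ i j : Fin d, i < j ∧ i ∉ extremes k y ∧ j ∉ extremes k y := by
      rcases lt_or_gt_of_ne hab with h | h
      · exact ⟨a, b, h, Finset.mem_compl.mp ha, Finset.mem_compl.mp hb⟩
      · exact ⟨b, a, h, Finset.mem_compl.mp hb, Finset.mem_compl.mp ha⟩
    obtain ⟨i, j, hij, hi, hj⟩ := h3
    have hc := cover_one hk he hey hij (hgen i hi) (hgen j hj)
    have hT1 : ∀ s : Mid n, InT n k (kap e s.1) := fun s => Or.inl (KP_kap he s)
    have hT2 : InT n k (cen e) := Or.inl (KP_cen he)
    have hT3 : ∀ s, InT n k (eps (d := d) k j.val s) :=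
      fun s => Or.inr (Or.inr (Or.inl ⟨j.val, j.isLt, s, rfl⟩))
    have hc' : IsCopy (fun s : Mid n => toG (kap e s.1) (fun l => ((hT1 s).extreme hk l).2))
        (toG (cen e) (fun l => (hT2.extreme hk l).2))
        (fun s => toG (eps (d := d) k j.val s) (fun l => ((hT3 s).extreme hk l).2)) x :=
      isCopy_vl.mp hc
    exact hc'.strongCopy (fun s => Finset.mem_insert_of_mem (toG_mem _ (hT1 s)))
      (Finset.mem_insert_of_mem (toG_mem _ hT2))
      (fun s => Finset.mem_insert_of_mem (toG_mem _ (hT3 s))) (Finset.mem_insert_self _ _)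

end Cover

end Helper57.GridSat
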