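import Pool.Agent.Helper57.GridSat.DimStep

namespace Helper57.GridSat

section Good

variable {P : Type} [PartialOrder P] {d : ℕ}

/-- The indices of the non-generic coordinates. -/
def supp (x : Fin d → ℚ) : Finset (Fin d) := Finset.univ.filter (fun j => x j ≠ 0)

theorem mem_supp {x : Fin d → ℚ} {j : Fin d} : j ∈ supp x ↔ x j ≠ 0 := by
  simp [supp]

/-- `T` is a `P`-free family with coordinates in `V`, and all points with coordinates in
`V ∪ {0}` and fewer than `s` nonzero coordinates are completed by `T`. -/
structure Good (P : Type) [PartialOrder P] {d : ℕ} (s : ℕ) (T : Finset (Fin d → ℚ))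
    (V : Fin d → Finset ℚ) : Prop where
  hV0 : ∀ j, (0 : ℚ) ∉ V j
  hTV : ∀ t ∈ T, ∀ j, t j ∈ V j
  free : ¬ HasCopy P (T : Set (Fin d → ℚ))
  cov : ∀ x : Fin d → ℚ, (∀ j, x j = 0 ∨ x j ∈ V j) → (supp x).card < s →
    HasCopy P (insert x (T : Set (Fin d → ℚ)))

/-- The uncovered points with exactly `s` nonzero coordinates. -/
noncomputable def unc (P : Type) [PartialOrder P] {d : ℕ} (s : ℕ) (T : Finset (Fin d → ℚ))
    (V : Fin d → Finset ℚ) : Finset (Fin d → ℚ) := by
  classical
  exact (Fintype.piFinset (fun j => insert 0 (V j))).filter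
    (fun x => (supp x).card = s ∧ ¬ HasCopy P (insert x (T : Set (Fin d → ℚ))))

theorem mem_unc {s : ℕ} {T : Finset (Fin d → ℚ)} {V : Fin d → Finset ℚ} {x : Fin d → ℚ} :
    x ∈ unc P s T V ↔ (∀ j, x j = 0 ∨ x j ∈ V j) ∧ (supp x).card = s ∧
      ¬ HasCopy P (insert x (T : Set (Fin d → ℚ))) := by
  classical
  unfold unc
  rw [Finset.mem_filter, Fintype.mem_piFinset]
  simp only [Finset.mem_insert]

theorem good_zero [Nonempty P] : Good P (d := d) 0 ∅ (fun _ => ∅) := by
  refine ⟨fun j => Finset.notMem_empty _, fun t ht => absurd ht (Finset.notMem_empty _), ?_, ?_⟩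
  · rintro ⟨f, -, h⟩
    obtain ⟨p⟩ := ‹Nonempty P›
    simpa using h p
  · intro x _ h
    exact absurd h (Nat.not_lt_zero _)

theorem exists_eps (V : Fin d → Finset ℚ) (hV : ∀ j, (0 : ℚ) ∉ V j) :
    ∃ ε : ℚ, 0 < ε ∧ ∀ j, ∀ v ∈ V j, ε ≤ |v| := by
  classical
  rcases (Finset.univ.biUnion V).eq_empty_or_nonempty with h | h
  · refine ⟨1, one_pos, fun j v hv => ?_⟩
    exfalso
    have : v ∈ Finset.univ.biUnion V := Finset.mem_biUnion.mpr ⟨j, Finset.mem_univ _, hv⟩
    rw [h] at this
    exact Finset.notMem_empty _ this
  · obtain ⟨w, hw, hmin⟩ := Finset.exists_min_image _ (fun v : ℚ => |v|) h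
    obtain ⟨i, -, hi⟩ := Finset.mem_biUnion.mp hw
    refine ⟨|w|, abs_pos.mpr (fun h0 => hV i (h0 ▸ hi)), fun j v hv => ?_⟩
    exact hmin v (Finset.mem_biUnion.mpr ⟨j, Finset.mem_univ _, hv⟩)

theorem good_step_aux [Fintype P] [Nonempty P] {m N : ℕ}
    (hP : StrongCopy P (Finset.univ : Finset (Grid m N))) (hm : 1 ≤ m) {s : ℕ}
    (hs : s + m ≤ d) (n : ℕ) : ∀ (T : Finset (Fin d → ℚ)) (V : Fin d → Finset ℚ),
      Good P s T V → (unc P s T V).card ≤ n →
      ∃ (T' : Finset (Fin d → ℚ)) (V' : Fin d → Finset ℚ), Good P (s + 1) T' V' := by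
  classical
  induction n with
  | zero =>
    intro T V hG hn
    have h0 : unc P s T V = ∅ := Finset.card_eq_zero.mp (Nat.le_zero.mp hn)
    refine ⟨T, V, hG.hV0, hG.hTV, hG.free, ?_⟩
    intro x hx hxs
    rcases Nat.lt_or_ge (supp x).card s with h | h
    · exact hG.cov x hx h
    · by_contra hcon
      have : x ∈ unc P s T V := mem_unc.mpr ⟨hx, by omega, hcon⟩
      rw [h0] at this
      exact Finset.notMem_empty _ this
  | succ n ih =>
    intro T V hG hn
    rcases (unc P s T V).eq_empty_or_nonempty with h0 | ⟨x, hx⟩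
    · apply ih T V hG
      rw [h0]
      exact Nat.zero_le _
    · obtain ⟨hxV, hxs, hxc⟩ := mem_unc.mp hx
      obtain ⟨ε, hε, hεV⟩ := exists_eps V hG.hV0
      obtain ⟨Y, hY1, hY2, hY3⟩ := insert_step hP hm T hG.free x ε hε
        (fun t ht j => hεV j _ (hG.hTV t ht j)) (by
          have : (Finset.univ.filter (fun j => x j ≠ 0)).card = s := hxs
          omega)
      set T' : Finset (Fin d → ℚ) := T ∪ Y with hT'
      set V' : Fin d → Finset ℚ := fun j => V j ∪ Y.image (fun y => y j) with hV'
      have hT'c : (T' : Set (Fin d → ℚ)) = (T : Set (Fin d → ℚ)) ∪ (Y : Set (Fin d → ℚ)) := by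
        rw [hT', Finset.coe_union]
      have hnew : ∀ j, ∀ v ∈ V' j, v ∈ V j ∨ (v ≠ 0 ∧ |v| < ε) := by
        intro j v hv
        rw [hV'] at hv
        simp only [Finset.mem_union, Finset.mem_image] at hv
        rcases hv with hv | ⟨y, hy, rfl⟩
        · exact Or.inl hv
        · by_cases hj : x j = 0
          · exact Or.inr ((hY3 y hy j).2 hj)
          · left
            rw [(hY3 y hy j).1 hj]
            exact (hxV j).resolve_left hj
      -- reduction of a point to old coordinates
      have hred : ∀ x' : Fin d → ℚ, (∀ j, x' j = 0 ∨ x' j ∈ V' j) →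
          ∃ x'' : Fin d → ℚ, (∀ j, x'' j = 0 ∨ x'' j ∈ V j) ∧
            SamePos (T : Set (Fin d → ℚ)) x'' x' ∧ supp x'' ⊆ supp x' ∧
            ((∃ j, x' j ≠ 0 ∧ x' j ∉ V j) → (supp x'').card < (supp x').card) := by
        intro x' hx'
        let x'' : Fin d → ℚ := fun j => if x' j ∈ V j then x' j else 0
        have h1 : ∀ j, x' j ∈ V j → x'' j = x' j := fun j hj => if_pos hj
        have h2 : ∀ j, x' j ∉ V j → x'' j = 0 := fun j hj => if_neg hj
        have hsub : supp x'' ⊆ supp x' := by
          intro j hj
          rw [mem_supp] at hj ⊢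
          by_cases hj' : x' j ∈ V j
          · rwa [h1 j hj'] at hj
          · exact absurd (h2 j hj') hj
        refine ⟨x'', ?_, ?_, hsub, ?_⟩
        · intro j
          by_cases hj : x' j ∈ V j
          · right
            rw [h1 j hj]
            exact hj
          · exact Or.inl (h2 j hj)
        · intro t ht
          have ht' : ∀ j, ε ≤ |t j| := fun j => hεV j _ (hG.hTV t ht j)
          have hcase : ∀ j, x'' j = x' j ∨ (x'' j = 0 ∧ |x' j| < ε) := by
            intro j
            by_cases hj : x' j ∈ V j
            · exact Or.inl (h1 j hj)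
            · right
              refine ⟨h2 j hj, ?_⟩
              rcases hx' j with h | h
              · rw [h, abs_zero]
                exact hε
              · rcases hnew j _ h with h' | h'
                · exact absurd h' hj
                · exact h'.2
          constructor
          · rw [Pi.le_def, Pi.le_def]
            apply forall_congr'
            intro j
            rcases hcase j with h | ⟨h, h'⟩
            · rw [h]
            · rw [h]
              have h3 := abs_lt.mp h'
              have h4 := ht' j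
              constructor
              · intro h5
                rw [abs_of_nonpos h5] at h4
                linarith
              · intro h5
                by_contra h6
                push Not at h6
                rw [abs_of_pos h6] at h4
                linarith
          · rw [Pi.le_def, Pi.le_def]
            apply forall_congr'
            intro j
            rcases hcase j with h | ⟨h, h'⟩
            · rw [h]
            · rw [h]
              have h3 := abs_lt.mp h'
              have h4 := ht' j
              constructor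
              · intro h5
                rw [abs_of_nonneg h5] at h4
                linarith
              · intro h5
                by_contra h6
                push Not at h6
                rw [abs_of_neg h6] at h4
                linarith
        · rintro ⟨j, hj, hj'⟩
          apply Finset.card_lt_card
          rw [Finset.ssubset_iff_of_subset hsub]
          refine ⟨j, mem_supp.mpr hj, ?_⟩
          rw [mem_supp, h2 j hj']
          simp
      have hG' : Good P s T' V' := by
        refine ⟨?_, ?_, ?_, ?_⟩
        · intro j h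
          rcases hnew j 0 h with h' | h'
          · exact hG.hV0 j h'
          · exact h'.1 rfl
        · intro t ht j
          rw [hT', Finset.mem_union] at ht
          rw [hV']
          simp only [Finset.mem_union, Finset.mem_image]
          rcases ht with ht | ht
          · exact Or.inl (hG.hTV t ht j)
          · exact Or.inr ⟨t, ht, rfl⟩
        · rw [hT'c]
          exact hY1
        · intro x' hx' hx's
          obtain ⟨x'', h1, h2, h3, -⟩ := hred x' hx'
          have h4 := hG.cov x'' h1 (lt_of_le_of_lt (Finset.card_le_card h3) hx's)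
          have h5 := h4.samePos h2
          apply h5.mono
          apply Set.insert_subset_insert
          rw [hT'c]
          exact Set.subset_union_left
      apply ih T' V' hG'
      have hsub : unc P s T' V' ⊆ (unc P s T V).erase x := by
        intro x' hx'
        obtain ⟨h1, h2, h3⟩ := mem_unc.mp hx'
        rw [Finset.mem_erase]
        constructor
        · rintro rfl
          apply h3
          rw [hT'c]
          exact hY2
        · obtain ⟨x'', g1, g2, g3, g4⟩ := hred x' h1
          have hold : ∀ j, x' j = 0 ∨ x' j ∈ V j := by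
            by_contra hcon
            push Not at hcon
            apply h3
            have h5 := (hG.cov x'' g1 (by rw [← h2]; exact g4 hcon)).samePos g2
            apply h5.mono
            apply Set.insert_subset_insert
            rw [hT'c]
            exact Set.subset_union_left
          refine mem_unc.mpr ⟨hold, h2, fun hcon => h3 (hcon.mono ?_)⟩
          apply Set.insert_subset_insert
          rw [hT'c]
          exact Set.subset_union_left
      have h1 := Finset.card_le_card hsub
      rw [Finset.card_erase_of_mem hx] at h1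
      omega

theorem exists_good [Fintype P] [Nonempty P] {m N : ℕ}
    (hP : StrongCopy P (Finset.univ : Finset (Grid m N))) (hm : 1 ≤ m) (s : ℕ)
    (hs : s + m ≤ d + 1) :
    ∃ (T : Finset (Fin d → ℚ)) (V : Fin d → Finset ℚ), Good P s T V := by
  induction s with
  | zero => exact ⟨∅, fun _ => ∅, good_zero⟩
  | succ s ih =>
    obtain ⟨T, V, hG⟩ := ih (by omega)
    exact good_step_aux hP hm (by omega) _ T V hG le_rfl

end Good

section Levels

/-- Stretching a finite set of levels around `0`. -/
theorem exists_levels (V : Finset ℚ) (hV : (0 : ℚ) ∉ V) (k : ℕ) (hk : V.card + 1 ≤ k) :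
    ∃ ψ : Fin k → ℚ, Monotone ψ ∧ (∀ u, ψ u = 0 ∨ ψ u ∈ V) ∧ (∀ v ∈ V, ∃ u, ψ u = v) ∧
      (∀ u u', ψ u = ψ u' → u = u' ∨ ψ u = 0) ∧
      (Finset.univ.filter (fun u => ψ u ≠ 0)).card ≤ V.card := by
  classical
  set W : Finset ℚ := insert 0 V with hW
  have hWc : W.card = V.card + 1 := Finset.card_insert_of_notMem hV
  set w : Fin (V.card + 1) ↪o ℚ := W.orderEmbOfFin hWc with hw
  have hrange : ∀ v, v ∈ W → ∃ i, w i = v := by
    intro v hv
    have : v ∈ Set.range w := by
      rw [hw, Finset.range_orderEmbOfFin]
      exact hv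
    exact this
  obtain ⟨a, ha⟩ := hrange 0 (Finset.mem_insert_self _ _)
  set D := k - (V.card + 1) with hD
  have haV := a.isLt
  let τ : Fin k → Fin (V.card + 1) := fun u =>
    ⟨if u.val ≤ a.val then u.val else if u.val ≤ a.val + D then a.val else u.val - D, by
      have := u.isLt
      split_ifs <;> omega⟩
  have hτ : ∀ u, (τ u).val = if u.val ≤ a.val then u.val else
      if u.val ≤ a.val + D then a.val else u.val - D := fun _ => rfl
  have hinj : ∀ u u', w (τ u) = w (τ u') → u = u' ∨ w (τ u) = 0 := by
    intro u u' h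
    have h1 : (τ u).val = (τ u').val := congrArg Fin.val (w.injective h)
    by_cases h2 : (τ u).val = a.val
    · right
      rw [← ha]
      congr 1
      exact Fin.ext h2
    · left
      apply Fin.ext
      rw [hτ] at h1 h2
      rw [hτ] at h1
      split_ifs at h1 h2 <;> omega
  refine ⟨fun u => w (τ u), ?_, ?_, ?_, hinj, ?_⟩
  · intro u u' huu
    apply w.monotone
    rw [Fin.le_def, hτ, hτ]
    have : u.val ≤ u'.val := huu
    split_ifs <;> omega
  · intro u
    have h1 : w (τ u) ∈ W := Finset.orderEmbOfFin_mem W hWc (τ u)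
    rw [hW, Finset.mem_insert] at h1
    exact h1
  · intro v hv
    obtain ⟨i, hi⟩ := hrange v (Finset.mem_insert_of_mem hv)
    have hiV := i.isLt
    by_cases h : i.val ≤ a.val
    · refine ⟨⟨i.val, by omega⟩, ?_⟩
      show w (τ _) = v
      rw [← hi]
      congr 1
      apply Fin.ext
      rw [hτ]
      simp only
      rw [if_pos h]
    · refine ⟨⟨i.val + D, by omega⟩, ?_⟩
      show w (τ _) = v
      rw [← hi]
      congr 1
      apply Fin.ext
      rw [hτ]
      simp only
      rw [if_neg (by omega), if_neg (by omega)]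
      omega
  · apply Finset.card_le_card_of_injOn (fun u => w (τ u))
    · intro u hu
      have hu' : w (τ u) ≠ 0 := by simpa using hu
      have h1 : w (τ u) ∈ W := Finset.orderEmbOfFin_mem W hWc (τ u)
      rw [hW, Finset.mem_insert] at h1
      exact h1.resolve_left hu'
    · intro u hu u' _ huu
      have hu' : w (τ u) ≠ 0 := by simpa using hu
      exact (hinj u u' huu).resolve_right hu'

theorem card_box_le {d k : ℕ} (S : Finset (Fin d)) (N : Fin d → Finset (Fin k)) (A : ℕ)
    (hA : ∀ l, (N l).card ≤ A) :
    (Finset.univ.filter (fun x : Grid d k => ∀ l ∈ S, x l ∈ N l)).card ≤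
      A ^ S.card * k ^ (d - S.card) := by
  classical
  have h1 : (Finset.univ.filter (fun x : Grid d k => ∀ l ∈ S, x l ∈ N l)) =
      Fintype.piFinset (fun j => if j ∈ S then N j else Finset.univ) := by
    ext x
    rw [Fintype.mem_piFinset, Finset.mem_filter]
    constructor
    · rintro ⟨-, h⟩ j
      by_cases hj : j ∈ S
      · rw [if_pos hj]
        exact h j hj
      · rw [if_neg hj]
        exact Finset.mem_univ _
    · intro h
      refine ⟨Finset.mem_univ _, fun l hl => ?_⟩
      have := h l
      rwa [if_pos hl] at this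
  have h2 : ∀ j : Fin d, (if j ∈ S then N j else (Finset.univ : Finset (Fin k))).card ≤
      if j ∈ S then A else k := by
    intro j
    split_ifs
    · exact hA j
    · simp
  rw [h1, Fintype.card_piFinset]
  refine (Finset.prod_le_prod' (fun j _ => h2 j)).trans ?_
  rw [Finset.prod_ite, Finset.prod_const, Finset.prod_const, Finset.filter_mem_eq_inter,
    Finset.univ_inter]
  apply le_of_eq
  congr 2
  have h3 : (Finset.univ.filter (fun j => j ∉ S)) = Sᶜ := by
    ext j
    simp
  rw [h3, Finset.card_compl, Fintype.card_fin]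

end Levels

/-- If a strong copy of `P` fits into an `m`-dimensional grid, `1 ≤ m ≤ d`, then
`sat^*([k]^d, P) = O(k^(m-1))`. -/
theorem dimension_bound {P : Type} [PartialOrder P] [Fintype P] [Nonempty P] {d m N : ℕ}
    (hm : 1 ≤ m) (hmd : m ≤ d) (hP : StrongCopy P (Finset.univ : Finset (Grid m N))) :
    ∃ C : ℕ, ∀ k, 1 ≤ k → sat P d k ≤ C * k ^ (m - 1) := by
  classical
  obtain ⟨T, V, hG⟩ := exists_good (d := d) hP hm (d - m + 1) (by omega)
  set A := ∑ j, (V j).card + 1 with hA
  have hVA : ∀ j, (V j).card + 1 ≤ A := by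
    intro j
    have : (V j).card ≤ ∑ j, (V j).card :=
      Finset.single_le_sum (f := fun j => (V j).card) (fun _ _ => Nat.zero_le _)
        (Finset.mem_univ j)
    omega
  set s := d - m + 1 with hs
  refine ⟨A ^ d + 2 ^ d * A ^ s, fun k hk => ?_⟩
  have hpow : 1 ≤ k ^ (m - 1) := Nat.one_le_pow _ _ hk
  rcases Nat.lt_or_ge k A with hkA | hkA
  · refine (sat_le_pow _ d k).trans ?_
    refine (Nat.pow_le_pow_left hkA.le d).trans ?_
    rw [add_mul]
    exact (Nat.le_mul_of_pos_right _ hpow).trans (Nat.le_add_right _ _)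
  have hlev := fun j => exists_levels (V j) (hG.hV0 j) k ((hVA j).trans hkA)
  choose ψ hmono hrange hsurj hinj hcard using hlev
  let Ψ : Grid d k → Fin d → ℚ := fun x j => ψ j (x j)
  set Tk : Finset (Grid d k) := Finset.univ.filter (fun x => Ψ x ∈ T) with hTk
  have hTk' : ∀ x, x ∈ Tk ↔ Ψ x ∈ T := by
    intro x
    rw [hTk, Finset.mem_filter]
    simp
  have hne : ∀ x, Ψ x ∈ T → ∀ j, ψ j (x j) ≠ 0 := by
    intro x hx j h
    have h1 := hG.hTV _ hx j
    have h2 : Ψ x j = 0 := h
    rw [h2] at h1
    exact hG.hV0 j h1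
  have hle1 : ∀ x, Ψ x ∈ T → ∀ y, x ≤ y ↔ Ψ x ≤ Ψ y := by
    intro x hx y
    constructor
    · intro h j
      exact hmono j (h j)
    · intro h j
      by_contra hcon
      push Not at hcon
      have h1 : ψ j (y j) ≤ ψ j (x j) := hmono j hcon.le
      have h2 : ψ j (x j) = ψ j (y j) := le_antisymm (h j) h1
      rcases hinj j _ _ h2 with h3 | h3
      · rw [h3] at hcon
        exact lt_irrefl _ hcon
      · exact hne x hx j h3
  have hle2 : ∀ x, Ψ x ∈ T → ∀ y, y ≤ x ↔ Ψ y ≤ Ψ x := by
    intro x hx y
    constructor
    · intro h j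
      exact hmono j (h j)
    · intro h j
      by_contra hcon
      push Not at hcon
      have h1 : ψ j (x j) ≤ ψ j (y j) := hmono j hcon.le
      have h2 : ψ j (x j) = ψ j (y j) := le_antisymm h1 (h j)
      rcases hinj j _ _ h2 with h3 | h3
      · rw [h3] at hcon
        exact lt_irrefl _ hcon
      · exact hne x hx j h3
  have hfree : ¬ StrongCopy P Tk := by
    rintro ⟨f, -, hf, hm'⟩
    apply hG.free
    refine ⟨fun p => Ψ (f p), ?_, fun p => (hTk' _).mp (hm' p)⟩
    intro p q
    rw [hf, hle1 _ ((hTk' _).mp (hm' p))]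
  obtain ⟨F, hTF, hF⟩ := exists_saturated_extension hfree
  -- lifting elements of `T`
  have hlift : ∀ t ∈ T, ∃ x : Grid d k, Ψ x = t := by
    intro t ht
    have h1 := fun j => hsurj j _ (hG.hTV t ht j)
    choose x hx using h1
    exact ⟨x, funext hx⟩
  have hcomp : ∀ y : Grid d k, (supp (Ψ y)).card < s → StrongCopy P (insert y Tk) := by
    intro y hy
    obtain ⟨f, hf, hfm⟩ := hG.cov (Ψ y) (fun j => hrange j (y j)) hy
    have h1 : ∀ p, ∃ z : Grid d k, (f p = Ψ y → z = y) ∧ (f p ≠ Ψ y → Ψ z = f p ∧ f p ∈ T) := by
      intro p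
      by_cases hp : f p = Ψ y
      · exact ⟨y, fun _ => rfl, fun h => absurd hp h⟩
      · have h2 : f p ∈ T := by
          rcases hfm p with h3 | h3
          · exact absurd h3 hp
          · exact h3
        obtain ⟨z, hz⟩ := hlift _ h2
        exact ⟨z, fun h => absurd h hp, fun _ => ⟨hz, h2⟩⟩
    choose g hg1 hg2 using h1
    have hgf : ∀ p, Ψ (g p) = f p := by
      intro p
      by_cases hp : f p = Ψ y
      · rw [hg1 p hp, hp]
      · exact (hg2 p hp).1
    have hgle : ∀ p q, p ≤ q ↔ g p ≤ g q := by
      intro p q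
      rw [hf]
      by_cases hp : f p = Ψ y
      · by_cases hq : f q = Ψ y
        · rw [hp, hq, hg1 p hp, hg1 q hq]
          simp
        · have h3 := hg2 q hq
          rw [hle2 (g q) (by rw [h3.1]; exact h3.2), hgf, hgf]
      · have h3 := hg2 p hp
        rw [hle1 (g p) (by rw [h3.1]; exact h3.2), hgf, hgf]
    refine ⟨g, ?_, hgle, ?_⟩
    · intro p q hpq
      apply le_antisymm
      · rw [hgle, hpq]
      · rw [hgle, hpq]
    · intro p
      by_cases hp : f p = Ψ y
      · rw [hg1 p hp]
        exact Finset.mem_insert_self _ _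
      · apply Finset.mem_insert_of_mem
        rw [hTk', (hg2 p hp).1]
        exact (hg2 p hp).2
  let N : Fin d → Finset (Fin k) := fun j => Finset.univ.filter (fun u => ψ j u ≠ 0)
  have hN : ∀ j, (N j).card ≤ A := fun j =>
    (hcard j).trans ((Nat.le_succ _).trans (hVA j))
  have hsub : F ⊆ (Finset.powersetCard s (Finset.univ : Finset (Fin d))).biUnion
      (fun S => Finset.univ.filter (fun x : Grid d k => ∀ l ∈ S, x l ∈ N l)) := by
    intro x hx
    have h1 : s ≤ (supp (Ψ x)).card := by
      by_contra hcon
      push Not at hcon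
      apply hF.1
      apply (hcomp x hcon).mono
      intro z hz
      rcases Finset.mem_insert.mp hz with rfl | hz
      · exact hx
      · exact hTF hz
    obtain ⟨S, hS, hSc⟩ := Finset.exists_subset_card_eq h1
    rw [Finset.mem_biUnion]
    refine ⟨S, Finset.mem_powersetCard.mpr ⟨Finset.subset_univ _, hSc⟩, ?_⟩
    rw [Finset.mem_filter]
    refine ⟨Finset.mem_univ _, fun l hl => ?_⟩
    have h2 := mem_supp.mp (hS hl)
    exact Finset.mem_filter.mpr ⟨Finset.mem_univ _, h2⟩
  have h2 : ∀ S ∈ Finset.powersetCard s (Finset.univ : Finset (Fin d)),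
      (Finset.univ.filter (fun x : Grid d k => ∀ l ∈ S, x l ∈ N l)).card ≤
        A ^ s * k ^ (m - 1) := by
    intro S hS
    rw [Finset.mem_powersetCard] at hS
    have h3 := card_box_le S N A hN
    rw [hS.2] at h3
    have h4 : d - s = m - 1 := by omega
    rwa [h4] at h3
  have h3 : (Finset.powersetCard s (Finset.univ : Finset (Fin d))).card ≤ 2 ^ d := by
    refine (Finset.card_le_card (fun S (_ : S ∈ _) => Finset.mem_univ S)).trans ?_
    rw [Finset.card_univ, Fintype.card_finset, Fintype.card_fin]
  calc sat P d k ≤ F.card := sat_le hF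
    _ ≤ ∑ S ∈ Finset.powersetCard s (Finset.univ : Finset (Fin d)),
        (Finset.univ.filter (fun x : Grid d k => ∀ l ∈ S, x l ∈ N l)).card :=
      (Finset.card_le_card hsub).trans Finset.card_biUnion_le
    _ ≤ ∑ S ∈ Finset.powersetCard s (Finset.univ : Finset (Fin d)), A ^ s * k ^ (m - 1) :=
      Finset.sum_le_sum h2
    _ = (Finset.powersetCard s (Finset.univ : Finset (Fin d))).card * (A ^ s * k ^ (m - 1)) := by
      rw [Finset.sum_const, smul_eq_mul]
    _ ≤ 2 ^ d * (A ^ s * k ^ (m - 1)) := Nat.mul_le_mul_right _ h3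
    _ ≤ (A ^ d + 2 ^ d * A ^ s) * k ^ (m - 1) := by
      rw [← mul_assoc, add_mul]
      exact Nat.le_add_left _ _

end Helper57.GridSat
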