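import Pool.Agent.Helper57.GridSat.Upper

namespace Helper57.GridSat

/-- `F` contains an induced copy of `P`. -/
def HasCopy (P : Type) [PartialOrder P] {α : Type} [PartialOrder α] (F : Set α) : Prop :=
  ∃ f : P → α, (∀ p q, p ≤ q ↔ f p ≤ f q) ∧ ∀ p, f p ∈ F

/-- `x` and `y` have the same comparabilities with all elements of `T`. -/
def SamePos {α : Type} [PartialOrder α] (T : Set α) (x y : α) : Prop :=
  ∀ t ∈ T, (t ≤ x ↔ t ≤ y) ∧ (x ≤ t ↔ y ≤ t)

theorem HasCopy.mono {P α : Type} [PartialOrder P] [PartialOrder α] {F G : Set α}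
    (h : HasCopy P F) (hFG : F ⊆ G) : HasCopy P G := by
  obtain ⟨f, h1, h2⟩ := h
  exact ⟨f, h1, fun p => hFG (h2 p)⟩

theorem HasCopy.samePos {P α : Type} [PartialOrder P] [PartialOrder α] {T : Set α} {x y : α}
    (h : HasCopy P (insert x T)) (hxy : SamePos T x y) : HasCopy P (insert y T) := by
  classical
  obtain ⟨f, h1, h2⟩ := h
  have key : ∀ p, f p = x ∨ (f p ∈ T ∧ f p ≠ x) := by
    intro p
    by_cases hp : f p = x
    · exact Or.inl hp
    · rcases h2 p with h' | h'
      · exact absurd h' hp
      · exact Or.inr ⟨h', hp⟩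
  refine ⟨fun p => if f p = x then y else f p, ?_, ?_⟩
  · intro p q
    simp only
    rw [h1]
    rcases key p with hp | ⟨hp, hp'⟩
    · rcases key q with hq | ⟨hq, hq'⟩
      · rw [if_pos hp, if_pos hq, hp, hq]
        simp
      · rw [if_pos hp, if_neg hq', hp, (hxy _ hq).2]
    · rcases key q with hq | ⟨hq, hq'⟩
      · rw [if_neg hp', if_pos hq, hq, (hxy _ hp).1]
      · rw [if_neg hp', if_neg hq']
  · intro p
    simp only
    rcases key p with hp | ⟨hp, hp'⟩
    · rw [if_pos hp]
      exact Set.mem_insert _ _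
    · rw [if_neg hp']
      exact Set.mem_insert_of_mem _ hp

/-- An embedding into a small cube centred at a given element and with no other element on
the coordinate hyperplanes. -/
theorem exists_centered {P : Type} [PartialOrder P] {m N : ℕ}
    (h : StrongCopy P (Finset.univ : Finset (Grid m N))) (r : P) (ε : ℚ) (hε : 0 < ε) :
    ∃ g : P → Fin m → ℚ, (∀ q q', q ≤ q' ↔ g q ≤ g q') ∧ (∀ i, g r i = 0) ∧
      (∀ q, q ≠ r → ∀ i, g q i ≠ 0) ∧ ∀ q i, |g q i| < ε := by
  classical
  obtain ⟨f, -, hf, -⟩ := h
  let e : P → ℤ := fun q => if r < q then 2 else if q = r then 1 else 0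
  have he2 : ∀ q, 0 ≤ e q ∧ e q ≤ 2 := by
    intro q
    simp only [e]
    split_ifs <;> omega
  have he0 : e r = 1 := by simp [e]
  have he1 : ∀ q, q ≠ r → e q ≠ 1 := by
    intro q hq
    simp only [e]
    rw [if_neg hq]
    split_ifs <;> omega
  have hemono : ∀ q q', q ≤ q' → e q ≤ e q' := by
    intro q q' hqr
    simp only [e]
    by_cases h1 : r < q
    · rw [if_pos h1, if_pos (h1.trans_le hqr)]
    · rw [if_neg h1]
      by_cases h2 : q = r
      · subst h2
        rw [if_pos rfl]
        by_cases h3 : q < q'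
        · rw [if_pos h3]
          omega
        · have : q' = q := (eq_of_le_of_not_lt hqr h3).symm
          rw [if_neg h3, if_pos this]
      · rw [if_neg h2]
        split_ifs <;> omega
  let G : P → Fin m → ℤ := fun q i => 3 * ((f q i).val : ℤ) + e q - (3 * ((f r i).val : ℤ) + 1)
  have hG : ∀ q q', q ≤ q' ↔ ∀ i, G q i ≤ G q' i := by
    intro q q'
    rw [hf]
    constructor
    · intro hqr i
      have h1 : (f q i).val ≤ (f q' i).val := hqr i
      have h2 := hemono q q' ((hf q q').mpr hqr)
      simp only [G]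
      omega
    · intro hqr i
      have h1 := hqr i
      simp only [G] at h1
      have h2 := he2 q
      have h3 := he2 q'
      rw [Fin.le_def]
      omega
  have hG0 : ∀ i, G r i = 0 := by
    intro i
    simp only [G]
    rw [he0]
    omega
  have hGne : ∀ q, q ≠ r → ∀ i, G q i ≠ 0 := by
    intro q hq i
    simp only [G]
    have h1 := he1 q hq
    have h2 := he2 q
    omega
  have hGb : ∀ q i, |G q i| ≤ 3 * (N : ℤ) + 3 := by
    intro q i
    simp only [G]
    have h1 := (f q i).isLt
    have h2 := (f r i).isLt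
    have h3 := he2 q
    rw [abs_le]
    constructor <;> omega
  set δ : ℚ := ε / (3 * (N : ℚ) + 4) with hδ
  have hN : (0 : ℚ) < 3 * (N : ℚ) + 4 := by positivity
  have hδ0 : 0 < δ := div_pos hε hN
  refine ⟨fun q i => (G q i : ℚ) * δ, ?_, ?_, ?_, ?_⟩
  · intro q q'
    rw [hG, Pi.le_def]
    apply forall_congr'
    intro i
    rw [mul_le_mul_iff_left₀ hδ0]
    exact_mod_cast Iff.rfl
  · intro i
    simp only
    rw [hG0]
    simp
  · intro q hq i
    simp only
    apply mul_ne_zero _ hδ0.ne'
    exact_mod_cast hGne q hq i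
  · intro q i
    simp only
    rw [abs_mul, abs_of_pos hδ0]
    have h1 : |(G q i : ℚ)| ≤ 3 * (N : ℚ) + 3 := by
      have := hGb q i
      exact_mod_cast this
    calc |(G q i : ℚ)| * δ ≤ (3 * (N : ℚ) + 3) * δ := mul_le_mul_of_nonneg_right h1 hδ0.le
      _ < (3 * (N : ℚ) + 4) * δ := by
        apply mul_lt_mul_of_pos_right _ hδ0
        linarith
      _ = ε := by
        rw [hδ]
        field_simp

/-- The part of `P` outside `M` is realised in `T`, with all of `M` in the position of `x`. -/
def Around {P α : Type} [PartialOrder P] [PartialOrder α] (T : Set α) (x : α)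
    (M : Finset P) : Prop :=
  ∃ f : P → α, (∀ q, q ∉ M → f q ∈ T) ∧ (∀ q, q ∉ M → ∀ q', q' ∉ M → (q ≤ q' ↔ f q ≤ f q')) ∧
    ∀ q, q ∉ M → ∀ r ∈ M, (q ≤ r ↔ f q ≤ x) ∧ (r ≤ q ↔ x ≤ f q)

/-- The insertion step: a point `x` which is not completed by `T` becomes completed after
adding finitely many points in the position of `x`. -/
theorem insert_step {P : Type} [PartialOrder P] [Fintype P] [Nonempty P] {d m N : ℕ}
    (hP : StrongCopy P (Finset.univ : Finset (Grid m N))) (hm : 1 ≤ m)
    (T : Finset (Fin d → ℚ)) (hT : ¬ HasCopy P (T : Set (Fin d → ℚ))) (x : Fin d → ℚ) (ε : ℚ)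
    (hε : 0 < ε) (hTε : ∀ t ∈ T, ∀ j, ε ≤ |t j|)
    (hx : (Finset.univ.filter (fun j => x j ≠ 0)).card + m ≤ d) :
    ∃ Y : Finset (Fin d → ℚ), ¬ HasCopy P ((T : Set (Fin d → ℚ)) ∪ (Y : Set (Fin d → ℚ))) ∧
      HasCopy P (insert x ((T : Set (Fin d → ℚ)) ∪ (Y : Set (Fin d → ℚ)))) ∧
      ∀ y ∈ Y, ∀ j, (x j ≠ 0 → y j = x j) ∧ (x j = 0 → y j ≠ 0 ∧ |y j| < ε) := by
  classical
  -- a minimal set `M`
  have huniv : Around (T : Set (Fin d → ℚ)) x (Finset.univ : Finset P) := by
    refine ⟨fun _ => x, ?_, ?_, ?_⟩
    · intro q hq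
      exact absurd (Finset.mem_univ q) hq
    · intro q hq
      exact absurd (Finset.mem_univ q) hq
    · intro q hq
      exact absurd (Finset.mem_univ q) hq
  set 𝓜 : Finset (Finset P) :=
    Finset.univ.filter (fun M => M.Nonempty ∧ Around (T : Set (Fin d → ℚ)) x M) with h𝓜
  have hne : 𝓜.Nonempty := by
    refine ⟨Finset.univ, ?_⟩
    rw [h𝓜, Finset.mem_filter]
    exact ⟨Finset.mem_univ _, Finset.univ_nonempty, huniv⟩
  obtain ⟨M, hM, hMmin⟩ := Finset.exists_min_image 𝓜 Finset.card hne
  rw [h𝓜, Finset.mem_filter] at hM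
  obtain ⟨-, ⟨r, hr⟩, f, hf1, hf2, hf3⟩ := hM
  -- the coordinates
  have hZ : m ≤ (Finset.univ.filter (fun j => x j = 0)).card := by
    have h1 := Finset.card_filter_add_card_filter_not (s := (Finset.univ : Finset (Fin d)))
      (p := fun j => x j = 0)
    rw [Finset.card_univ, Fintype.card_fin] at h1
    simp only [ne_eq] at hx
    omega
  obtain ⟨Z, hZs, hZc⟩ := Finset.exists_subset_card_eq hZ
  let e : Fin m → Fin d := Z.orderEmbOfFin hZc
  have he : Function.Injective e := (Z.orderEmbOfFin hZc).injective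
  have hex : ∀ i, x (e i) = 0 := by
    intro i
    have h2 : e i ∈ Finset.univ.filter (fun j => x j = 0) :=
      hZs (Finset.orderEmbOfFin_mem Z hZc i)
    rw [Finset.mem_filter] at h2
    exact h2.2
  have : Nonempty (Fin m) := ⟨⟨0, hm⟩⟩
  let c : Fin d → Fin m := Function.invFun e
  have hce : ∀ i, c (e i) = i := Function.leftInverse_invFun he
  obtain ⟨g, hg, hg0, hgne, hgε⟩ := exists_centered hP r ε hε
  let y : P → Fin d → ℚ := fun q j => if x j = 0 then g q (c j) else x j
  have hy0 : ∀ q j, x j = 0 → y q j = g q (c j) := fun q j hj => if_pos hj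
  have hy1 : ∀ q j, x j ≠ 0 → y q j = x j := fun q j hj => if_neg hj
  have hyr : y r = x := by
    funext j
    by_cases hj : x j = 0
    · rw [hy0 r j hj, hg0, hj]
    · exact hy1 r j hj
  have hyle : ∀ q q', q ≤ q' ↔ y q ≤ y q' := by
    intro q q'
    rw [hg]
    constructor
    · intro h j
      by_cases hj : x j = 0
      · rw [hy0 q j hj, hy0 q' j hj]
        exact h (c j)
      · rw [hy1 q j hj, hy1 q' j hj]
    · intro h i
      have h1 := h (e i)
      rw [hy0 q _ (hex i), hy0 q' _ (hex i), hce] at h1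
      exact h1
  -- all `y q` are in the same position as `x` with respect to `T`
  have hpos : ∀ q, SamePos (T : Set (Fin d → ℚ)) (y q) x := by
    intro q t ht
    have ht' := hTε t ht
    constructor
    · rw [Pi.le_def, Pi.le_def]
      apply forall_congr'
      intro j
      by_cases hj : x j = 0
      · rw [hy0 q j hj, hj]
        have h1 := abs_lt.mp (hgε q (c j))
        have h2 := ht' j
        constructor
        · intro h3
          by_contra h4
          push Not at h4
          rw [abs_of_pos h4] at h2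
          linarith
        · intro h3
          rw [abs_of_nonpos h3] at h2
          linarith
      · rw [hy1 q j hj]
    · rw [Pi.le_def, Pi.le_def]
      apply forall_congr'
      intro j
      by_cases hj : x j = 0
      · rw [hy0 q j hj, hj]
        have h1 := abs_lt.mp (hgε q (c j))
        have h2 := ht' j
        constructor
        · intro h3
          by_contra h4
          push Not at h4
          rw [abs_of_neg h4] at h2
          linarith
        · intro h3
          rw [abs_of_nonneg h3] at h2
          linarith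
      · rw [hy1 q j hj]
  set Y : Finset (Fin d → ℚ) := (M.erase r).image y with hY
  refine ⟨Y, ?_, ?_, ?_⟩
  · rintro ⟨h, hh1, hh2⟩
    have hinj : Function.Injective h := by
      intro p q hpq
      apply le_antisymm
      · rw [hh1, hpq]
      · rw [hh1, hpq]
    set M' : Finset P := Finset.univ.filter (fun q => h q ∉ (T : Set (Fin d → ℚ))) with hM'
    have hM'T : ∀ q, q ∉ M' → h q ∈ (T : Set (Fin d → ℚ)) := by
      intro q hq
      by_contra hcon
      exact hq (Finset.mem_filter.mpr ⟨Finset.mem_univ _, hcon⟩)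
    have hM'Y : ∀ q ∈ M', h q ∈ Y := by
      intro q hq
      have h1 := (Finset.mem_filter.mp hq).2
      rcases hh2 q with h2 | h2
      · exact absurd h2 h1
      · exact h2
    have hM'ne : M'.Nonempty := by
      by_contra hcon
      rw [Finset.not_nonempty_iff_eq_empty] at hcon
      apply hT
      refine ⟨h, hh1, fun q => hM'T q ?_⟩
      rw [hcon]
      exact Finset.notMem_empty _
    have hA : Around (T : Set (Fin d → ℚ)) x M' := by
      refine ⟨h, hM'T, fun q _ q' _ => hh1 q q', ?_⟩
      intro q hq s hs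
      obtain ⟨q', -, hq'⟩ := Finset.mem_image.mp (hM'Y s hs)
      have h1 := hpos q' (h q) (hM'T q hq)
      rw [hq'] at h1
      exact ⟨(hh1 q s).trans h1.1, (hh1 s q).trans h1.2⟩
    have h1 : M.card ≤ M'.card := by
      apply hMmin
      rw [h𝓜, Finset.mem_filter]
      exact ⟨Finset.mem_univ _, hM'ne, hA⟩
    have h2 : M'.card ≤ Y.card := by
      apply Finset.card_le_card_of_injOn h
      · intro q hq
        exact hM'Y q hq
      · exact hinj.injOn
    have h3 : Y.card ≤ M.card - 1 := by
      refine Finset.card_image_le.trans ?_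
      rw [Finset.card_erase_of_mem hr]
    have h4 : 0 < M.card := Finset.card_pos.mpr ⟨r, hr⟩
    omega
  · refine ⟨fun q => if q ∈ M then y q else f q, ?_, ?_⟩
    · intro q q'
      simp only
      by_cases hq : q ∈ M
      · by_cases hq' : q' ∈ M
        · rw [if_pos hq, if_pos hq']
          exact hyle q q'
        · rw [if_pos hq, if_neg hq']
          exact (hf3 q' hq' q hq).2.trans (hpos q (f q') (hf1 q' hq')).2.symm
      · by_cases hq' : q' ∈ M
        · rw [if_neg hq, if_pos hq']
          exact (hf3 q hq q' hq').1.trans (hpos q' (f q) (hf1 q hq)).1.symm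
        · rw [if_neg hq, if_neg hq']
          exact hf2 q hq q' hq'
    · intro q
      simp only
      by_cases hq : q ∈ M
      · rw [if_pos hq]
        by_cases hqr : q = r
        · rw [hqr, hyr]
          exact Set.mem_insert _ _
        · apply Set.mem_insert_of_mem
          right
          rw [hY, Finset.mem_coe]
          exact Finset.mem_image_of_mem _ (Finset.mem_erase.mpr ⟨hqr, hq⟩)
      · rw [if_neg hq]
        exact Set.mem_insert_of_mem _ (Or.inl (hf1 q hq))
  · intro z hz j
    obtain ⟨q, hq, rfl⟩ := Finset.mem_image.mp hz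
    constructor
    · intro hj
      exact hy1 q j hj
    · intro hj
      rw [hy0 q j hj]
      exact ⟨hgne q (Finset.ne_of_mem_erase hq) _, hgε q _⟩

end Helper57.GridSat
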