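import Pool.Agent.Helper57.GridSat.Orders

namespace Helper57.GridSat

/-- `g` is the order of magnitude of `k ↦ sat^*([k]^d, P)` for some finite poset `P` with at
least two elements. -/
def Attained (d : ℕ) (g : ℕ → ℕ) : Prop :=
  ∃ (P : Type) (_ : Fintype P) (_ : PartialOrder P) (_ : Nontrivial P), SameOrder (sat P d) g

theorem attained_zero (d : ℕ) : Attained d (fun k => k ^ 0) := by
  refine ⟨Fin 2, inferInstance, inferInstance, inferInstance, 1, 1, fun k hk => ?_⟩
  rw [chain_sat d k hk]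
  simp

theorem attained_one {d : ℕ} (hd : 1 ≤ d) : Attained d (fun k => k ^ 1) :=
  ⟨Unit ⊕ Unit, inferInstance, inferInstance,
    ⟨⟨Sum.inl (), Sum.inr (), by simp⟩⟩, antichain_order hd⟩

theorem attained_top (d : ℕ) : Attained d (fun k => k ^ d) := by
  refine ⟨Finset (Fin (d + 1)), inferInstance, inferInstance, inferInstance, 1, 1,
    fun k _ => ?_⟩
  rw [boolean_order d k]
  simp

theorem attained_mid {d n : ℕ} (hn : 3 ≤ n) (hnd : n ≤ d) :
    Attained d (fun k => k ^ (n - 2)) := by
  classical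
  refine ⟨TwoLayer (Mid n) (Finset (Fin d)),
    (inferInstance : Fintype ((Mid n ⊕ Unit) ⊕ (Finset (Fin d) ⊕ Unit))),
    inferInstance, ⟨⟨toLex (Sum.inl (Sum.inr ())), toLex (Sum.inr (Sum.inr ())), ?_⟩⟩,
    twoLayer_order hn hnd⟩
  intro h
  have := toLex.injective h
  simp at this

/-- All exponents `0, 1, ..., d - 2` and `d` occur. -/
theorem attained_all {d : ℕ} (hd : 2 ≤ d) {j : ℕ} (hj : j ≤ d - 2 ∨ j = d) :
    Attained d (fun k => k ^ j) := by
  rcases hj with hj | rfl
  · rcases Nat.eq_zero_or_pos j with rfl | hj0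
    · exact attained_zero d
    · have := attained_mid (d := d) (n := j + 2) (by omega) (by omega)
      rwa [Nat.add_sub_cancel] at this
  · exact attained_top j

/-- Every saturation number is `k^d`, or at most of order `k^(d-1)`. -/
theorem top_gap {d : ℕ} (hd : 1 ≤ d) (P : Type) [Fintype P] [PartialOrder P] [Nonempty P] :
    (∀ k, sat P d k = k ^ d) ∨ ∃ C : ℕ, ∀ k, 1 ≤ k → sat P d k ≤ C * k ^ (d - 1) := by
  by_cases h : ∃ N, StrongCopy P (Finset.univ : Finset (Grid d N))
  · obtain ⟨N, hN⟩ := h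
    exact Or.inr (upper_bound hd hN)
  · push Not at h
    exact Or.inl (fun k => sat_eq_pow (h k))

/-- In dimension at most two the order is `k^j` with `j ≤ d`. -/
theorem small_dim {d : ℕ} (hd : 1 ≤ d) (hd2 : d ≤ 2) (P : Type) [Fintype P] [PartialOrder P]
    [Nontrivial P] : ∃ j ≤ d, SameOrder (sat P d) (fun k => k ^ j) := by
  rcases top_gap hd P with h | ⟨C, hC⟩
  · refine ⟨d, le_rfl, 1, 1, fun k _ => ?_⟩
    rw [h k]
    simp
  · rcases bounded_or_linear P d with ⟨B, hB⟩ | h
    · refine ⟨0, Nat.zero_le _, 1, B, fun k hk => ⟨?_, ?_⟩⟩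
      · show k ^ 0 ≤ 1 * sat P d k
        rw [pow_zero, one_mul]
        exact one_le_sat hk
      · show sat P d k ≤ B * k ^ 0
        rw [pow_zero, mul_one]
        exact hB k
    · refine ⟨1, hd, 1, C, fun k hk => ⟨?_, ?_⟩⟩
      · show k ^ 1 ≤ 1 * sat P d k
        rw [pow_one, one_mul]
        exact h k
      · show sat P d k ≤ C * k ^ 1
        refine (hC k hk).trans (Nat.mul_le_mul_left _ (Nat.pow_le_pow_right hk (by omega)))

end Helper57.GridSat
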