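import Pool.Agent.Helper57.GridSat.Cover

namespace Helper57.GridSat

section Count

variable {d k : ℕ}

theorem card_box (S : Finset (Fin d)) (N : Finset (Fin k)) :
    (Finset.univ.filter (fun x : Grid d k => ∀ l ∈ S, x l ∈ N)).card =
      N.card ^ S.card * k ^ (d - S.card) := by
  classical
  have h1 : (Finset.univ.filter (fun x : Grid d k => ∀ l ∈ S, x l ∈ N)) =
      Fintype.piFinset (fun j => if j ∈ S then N else Finset.univ) := by
    ext x
    rw [Fintype.mem_piFinset, Finset.mem_filter]
    constructor
    · rintro ⟨-, h⟩ j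
      by_cases hj : j ∈ S
      · rw [if_pos hj]
        exact h j hj
      · rw [if_neg hj]
        exact Finset.mem_univ _
    · intro h
      refine ⟨Finset.mem_univ _, fun l hl => ?_⟩
      have := h l
      rwa [if_pos hl] at this
  have h2 : ∀ j : Fin d, (if j ∈ S then N else (Finset.univ : Finset (Fin k))).card =
      if j ∈ S then N.card else k := by
    intro j
    split_ifs
    · rfl
    · simp
  rw [h1, Fintype.card_piFinset, Finset.prod_congr rfl (fun j _ => h2 j), Finset.prod_ite,
    Finset.prod_const, Finset.prod_const, Finset.filter_mem_eq_inter, Finset.univ_inter]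
  congr 2
  have h3 : (Finset.univ.filter (fun j => j ∉ S)) = Sᶜ := by
    ext j
    simp
  rw [h3, Finset.card_compl, Fintype.card_fin]

theorem card_extremes (m : ℕ) :
    (Finset.univ.filter (fun x : Grid d k => m ≤ (extremes k (vl x)).card)).card ≤
      2 ^ d * ((2 * (2 * d + 6)) ^ m * k ^ (d - m)) := by
  classical
  set N := Finset.univ.filter (fun v : Fin k => v.val < 2 * d + 6 ∨ k - (2 * d + 6) ≤ v.val)
    with hN
  have hNc : N.card ≤ 2 * (2 * d + 6) := card_edge k (2 * d + 6)
  have h1 : (Finset.univ.filter (fun x : Grid d k => m ≤ (extremes k (vl x)).card)) ⊆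
      (Finset.powersetCard m (Finset.univ : Finset (Fin d))).biUnion
        (fun S => Finset.univ.filter (fun x : Grid d k => ∀ l ∈ S, x l ∈ N)) := by
    intro x hx
    rw [Finset.mem_filter] at hx
    obtain ⟨S, hS, hSc⟩ := Finset.exists_subset_card_eq hx.2
    rw [Finset.mem_biUnion]
    refine ⟨S, Finset.mem_powersetCard.mpr ⟨Finset.subset_univ _, hSc⟩, ?_⟩
    rw [Finset.mem_filter]
    refine ⟨Finset.mem_univ _, fun l hl => ?_⟩
    have h2 := hS hl
    unfold extremes at h2
    rw [Finset.mem_filter] at h2
    rw [hN, Finset.mem_filter]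
    exact ⟨Finset.mem_univ _, h2.2⟩
  refine (Finset.card_le_card h1).trans (Finset.card_biUnion_le.trans ?_)
  have h2 : ∀ S ∈ Finset.powersetCard m (Finset.univ : Finset (Fin d)),
      (Finset.univ.filter (fun x : Grid d k => ∀ l ∈ S, x l ∈ N)).card ≤
        (2 * (2 * d + 6)) ^ m * k ^ (d - m) := by
    intro S hS
    rw [Finset.mem_powersetCard] at hS
    rw [card_box, hS.2]
    exact Nat.mul_le_mul_right _ (Nat.pow_le_pow_left hNc m)
  refine (Finset.sum_le_sum h2).trans ?_
  rw [Finset.sum_const, smul_eq_mul]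
  apply Nat.mul_le_mul_right
  refine (Finset.card_le_card (fun S (_ : S ∈ _) => Finset.mem_univ S)).trans ?_
  rw [Finset.card_univ, Fintype.card_finset, Fintype.card_fin]

end Count

section Intermediate

theorem twoLayer_upper {d n : ℕ} (hn : 3 ≤ n) (hnd : n ≤ d) :
    ∃ C : ℕ, ∀ k, 1 ≤ k →
      sat (TwoLayer (Mid n) (Finset (Fin d))) d k ≤ C * k ^ (n - 2) := by
  classical
  set m := d - n + 2 with hm
  refine ⟨(4 * d + 12) ^ d + 2 ^ d * (2 * (2 * d + 6)) ^ m, fun k hk => ?_⟩
  have hpow : 1 ≤ k ^ (n - 2) := Nat.one_le_pow _ _ hk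
  rcases Nat.lt_or_ge k (4 * d + 12) with hkM | hkM
  · have : Nonempty (TwoLayer (Mid n) (Finset (Fin d))) := ⟨toLex (Sum.inl (Sum.inr ()))⟩
    refine (sat_le_pow _ d k).trans ?_
    refine (Nat.pow_le_pow_left hkM.le d).trans ?_
    rw [add_mul]
    exact (Nat.le_mul_of_pos_right _ hpow).trans (Nat.le_add_right _ _)
  · obtain ⟨F, hTF, hF⟩ := exists_saturated_extension (tmpl_free hn hnd hkM)
    have hsub : F ⊆ Finset.univ.filter (fun x : Grid d k => m ≤ (extremes k (vl x)).card) := by
      intro x hx
      rw [Finset.mem_filter]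
      refine ⟨Finset.mem_univ _, ?_⟩
      by_contra hcon
      push Not at hcon
      have h1 := tmpl_cover hn hnd hkM x (by omega)
      apply hF.1
      apply h1.mono
      intro z hz
      rcases Finset.mem_insert.mp hz with rfl | hz
      · exact hx
      · exact hTF hz
    have h1 := (sat_le hF).trans ((Finset.card_le_card hsub).trans (card_extremes m))
    have h2 : d - m = n - 2 := by omega
    rw [h2] at h1
    refine h1.trans ?_
    rw [← mul_assoc, add_mul]
    exact Nat.le_add_left _ _

/-- The dimension bound for posets containing a standard example: an induced copy must be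
non-constant in `m` coordinates. -/
theorem standard_bound {Q : Type} [PartialOrder Q] {d k m : ℕ} (g : Q → Grid d k)
    (hg : ∀ q q', q ≤ q' ↔ g q ≤ g q') (a b : Fin m → Q) (hab : ∀ i, ¬ a i ≤ b i)
    (hab' : ∀ i j, i ≠ j → a i ≤ b j) (C : Finset (Fin d))
    (hC : ∀ l ∈ C, ∀ q q', g q l = g q' l) : m + C.card ≤ d := by
  classical
  have h1 : ∀ i, ∃ l, g (b i) l < g (a i) l := by
    intro i
    by_contra hcon
    push Not at hcon
    exact hab i ((hg _ _).mpr hcon)
  choose φ hφ using h1
  have h2 : Function.Injective φ := by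
    intro i j hij
    by_contra hne
    have h3 : g (a i) (φ i) ≤ g (b j) (φ i) := (hg _ _).mp (hab' i j hne) _
    have h4 : g (a j) (φ i) ≤ g (b i) (φ i) := (hg _ _).mp (hab' j i (Ne.symm hne)) _
    have h5 := hφ i
    have h6 := hφ j
    rw [← hij] at h6
    exact absurd (h3.trans_lt (h6.trans_le (h4.trans h5.le))) (lt_irrefl _)
  have h3 : (Finset.univ.image φ) ⊆ Cᶜ := by
    intro l hl
    obtain ⟨i, -, rfl⟩ := Finset.mem_image.mp hl
    rw [Finset.mem_compl]
    intro hcon
    have := hφ i
    rw [hC _ hcon (b i) (a i)] at this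
    exact lt_irrefl _ this
  have h4 := Finset.card_le_card h3
  rw [Finset.card_image_of_injective _ h2, Finset.card_univ, Fintype.card_fin,
    Finset.card_compl, Fintype.card_fin] at h4
  have h5 := Finset.card_le_univ C
  rw [Fintype.card_fin] at h5
  omega

theorem finset_bound {d k m : ℕ} (g : Finset (Fin m) → Grid d k)
    (hg : ∀ q q', q ≤ q' ↔ g q ≤ g q') (C : Finset (Fin d))
    (hC : ∀ l ∈ C, ∀ q q', g q l = g q' l) : m + C.card ≤ d := by
  classical
  apply standard_bound g hg (fun i => {i}) (fun i => Finset.univ.erase i) _ _ C hC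
  · intro i h
    have := h (Finset.mem_singleton_self i)
    simp at this
  · intro i j hij l hl
    rw [Finset.mem_singleton] at hl
    subst hl
    simp [hij]

theorem mid_bound {d k n : ℕ} (hn : 3 ≤ n) (g : Mid n → Grid d k)
    (hg : ∀ q q', q ≤ q' ↔ g q ≤ g q') (C : Finset (Fin d))
    (hC : ∀ l ∈ C, ∀ q q', g q l = g q' l) : n + C.card ≤ d := by
  classical
  have h1 : ∀ i : Fin n, ({i} : Finset (Fin n)).Nonempty ∧
      ({i} : Finset (Fin n)) ≠ Finset.univ := by
    intro i
    refine ⟨Finset.singleton_nonempty i, fun hcon => ?_⟩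
    have := congrArg Finset.card hcon
    rw [Finset.card_singleton, Finset.card_univ, Fintype.card_fin] at this
    omega
  have h2 : ∀ i : Fin n, (Finset.univ.erase i).Nonempty ∧
      (Finset.univ.erase i) ≠ (Finset.univ : Finset (Fin n)) := by
    intro i
    constructor
    · rw [← Finset.card_pos, Finset.card_erase_of_mem (Finset.mem_univ _), Finset.card_univ,
        Fintype.card_fin]
      omega
    · intro hcon
      have := Finset.mem_univ i
      rw [← hcon] at this
      simp at this
  apply standard_bound g hg (fun i => ⟨{i}, h1 i⟩) (fun i => ⟨Finset.univ.erase i, h2 i⟩) _ _ C hC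
  · intro i h
    have := (Subtype.coe_le_coe.mpr h) (Finset.mem_singleton_self i)
    simp at this
  · intro i j hij
    rw [← Subtype.coe_le_coe]
    intro l hl
    rw [Finset.mem_singleton] at hl
    subst hl
    simp [hij]

/-- Points with `d - n + 1` coordinates equal to the minimum and one coordinate equal to the
maximum lie in every saturated family. -/
theorem forced {d k n : ℕ} (hn : 3 ≤ n) {F : Finset (Grid d k)}
    (hF : Saturated (TwoLayer (Mid n) (Finset (Fin d))) F) (A : Finset (Fin d))
    (hA : d < A.card + n) (b : Fin d) (x : Grid d k) (hx : ∀ l ∈ A, (x l).val = 0)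
    (hxb : (x b).val = k - 1) : x ∈ F := by
  classical
  by_contra hcon
  obtain ⟨gb, rb, gt, rt, hc, -, -, -, -, he⟩ := (hF.2 x hcon).isCopy
  -- no element above `x`-level
  have h1 : ∀ y : Grid d k, y ≤ x → (∀ s, gt s ≠ y) ∧ rt ≠ y := by
    intro y hy
    have h2 : ¬ ∀ s, gb s ≤ x := by
      intro h3
      have h4 := mid_bound hn gb hc.hgb A (by
        intro l hl q q'
        apply Fin.ext
        have h5 : (gb q l).val ≤ (x l).val := h3 q l
        have h6 : (gb q' l).val ≤ (x l).val := h3 q' l
        have h7 := hx l hl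
        omega)
      omega
    constructor
    · rintro s rfl
      exact h2 (fun t => (hc.h1 t s).le.trans hy)
    · rintro rfl
      exact h2 (fun t => (hc.h2 t).le.trans hy)
  have h2 : ∀ y : Grid d k, x ≤ y → (∀ s, gb s ≠ y) ∧ rb ≠ y := by
    intro y hy
    have h3 : ¬ ∀ s, x ≤ gt s := by
      intro h3
      have h4 := finset_bound gt hc.hgt {b} (by
        intro l hl q q'
        rw [Finset.mem_singleton] at hl
        subst hl
        apply Fin.ext
        have h5 : (x l).val ≤ (gt q l).val := h3 q l
        have h6 : (x l).val ≤ (gt q' l).val := h3 q' l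
        have h7 := (gt q l).isLt
        have h8 := (gt q' l).isLt
        omega)
      rw [Finset.card_singleton] at h4
      omega
    constructor
    · rintro s rfl
      exact h3 (fun t => hy.trans (hc.h1 s t).le)
    · rintro rfl
      exact h3 (fun t => hy.trans (hc.h3 t).le)
  have h3 := he x (h2 x le_rfl).1 (h2 x le_rfl).2 (h1 x le_rfl).1 (h1 x le_rfl).2
  rw [Finset.erase_insert hcon] at h3
  exact hF.1 h3

theorem twoLayer_lower {d n : ℕ} (hn : 3 ≤ n) (hnd : n ≤ d) (k : ℕ) (hk : 1 ≤ k) :
    k ^ (n - 2) ≤ sat (TwoLayer (Mid n) (Finset (Fin d))) d k := by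
  classical
  have : Nonempty (TwoLayer (Mid n) (Finset (Fin d))) := ⟨toLex (Sum.inl (Sum.inr ()))⟩
  obtain ⟨F, hF, hFc⟩ := sat_spec (TwoLayer (Mid n) (Finset (Fin d))) d k
  rw [← hFc]
  let b : Fin d := ⟨0, by omega⟩
  have h1 : d - n + 1 ≤ ((Finset.univ : Finset (Fin d)).erase b).card := by
    rw [Finset.card_erase_of_mem (Finset.mem_univ _), Finset.card_univ, Fintype.card_fin]
    omega
  obtain ⟨A, hAb, hAc⟩ := Finset.exists_subset_card_eq h1
  have hbA : b ∉ A := fun h => absurd (hAb h) (by simp)
  set G : Finset (Grid d k) := Fintype.piFinset (fun l => if l ∈ A then {⟨0, hk⟩} else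
    if l = b then {⟨k - 1, by omega⟩} else Finset.univ) with hG
  have hGF : G ⊆ F := by
    intro x hx
    rw [hG, Fintype.mem_piFinset] at hx
    apply forced hn hF A (by omega) b x
    · intro l hl
      have := hx l
      rw [if_pos hl, Finset.mem_singleton] at this
      rw [this]
    · have := hx b
      rw [if_neg hbA, if_pos rfl, Finset.mem_singleton] at this
      rw [this]
  refine le_trans (le_of_eq ?_) (Finset.card_le_card hGF)
  rw [hG, Fintype.card_piFinset]
  have h2 : ∀ l : Fin d, (if l ∈ A then ({⟨0, hk⟩} : Finset (Fin k)) else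
      if l = b then {⟨k - 1, by omega⟩} else Finset.univ).card =
      if l ∈ insert b A then 1 else k := by
    intro l
    by_cases hl : l ∈ A
    · rw [if_pos hl, if_pos (Finset.mem_insert_of_mem hl)]
      simp
    · by_cases hl' : l = b
      · rw [if_neg hl, if_pos hl', if_pos (by rw [hl']; exact Finset.mem_insert_self _ _)]
        simp
      · rw [if_neg hl, if_neg hl', if_neg]
        · simp
        · rw [Finset.mem_insert]
          tauto
  rw [Finset.prod_congr rfl (fun l _ => h2 l), Finset.prod_ite, Finset.prod_const,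
    Finset.prod_const, one_pow, one_mul]
  congr 1
  have h3 : (Finset.univ.filter (fun l => l ∉ insert b A)) = (insert b A)ᶜ := by
    ext l
    simp
  rw [h3, Finset.card_compl, Fintype.card_fin, Finset.card_insert_of_notMem hbA, hAc]
  omega

/-- The order `k^(n-2)` is attained in dimension `d`, for `3 ≤ n ≤ d`. -/
theorem twoLayer_order {d n : ℕ} (hn : 3 ≤ n) (hnd : n ≤ d) :
    SameOrder (sat (TwoLayer (Mid n) (Finset (Fin d))) d) (fun k => k ^ (n - 2)) := by
  obtain ⟨C, hC⟩ := twoLayer_upper hn hnd
  refine ⟨1, C, fun k hk => ⟨?_, hC k hk⟩⟩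
  rw [one_mul]
  exact twoLayer_lower hn hnd k hk

end Intermediate

section Simple

/-- The Boolean lattice with `d + 1` atoms does not fit into a `d`-dimensional grid. -/
theorem boolean_not_copy (d k : ℕ) :
    ¬ StrongCopy (Finset (Fin (d + 1))) (Finset.univ : Finset (Grid d k)) := by
  rintro ⟨f, -, hf, -⟩
  have := finset_bound f hf ∅ (by simp)
  simp at this

theorem boolean_order (d : ℕ) :
    ∀ k, sat (Finset (Fin (d + 1))) d k = k ^ d := fun k => sat_eq_pow (boolean_not_copy d k)

/-- The saturation number of the two-element chain is `1`. -/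
theorem chain_sat (d k : ℕ) (hk : 1 ≤ k) : sat (Fin 2) d k = 1 := by
  classical
  apply le_antisymm _ (one_le_sat hk)
  let o : Grid d k := fun _ => ⟨0, hk⟩
  have ho : ∀ x : Grid d k, o ≤ x := fun x l => Nat.zero_le _
  have h1 : Saturated (Fin 2) ({o} : Finset (Grid d k)) := by
    constructor
    · intro h
      have := h.card_le
      simp at this
    · intro x hx
      have hxo : x ≠ o := fun h => hx (by rw [h]; exact Finset.mem_singleton_self _)
      have hlt : o < x := lt_of_le_of_ne (ho x) (Ne.symm hxo)
      have hf : ∀ p q : Fin 2, p ≤ q ↔ (![o, x] : Fin 2 → Grid d k) p ≤ ![o, x] q := by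
        intro p q
        fin_cases p <;> fin_cases q
        · simp
        · simp [ho x]
        · simp [not_le_of_gt hlt]
        · simp
      refine ⟨![o, x], ?_, hf, ?_⟩
      · intro p q hpq
        apply le_antisymm
        · rw [hf, hpq]
        · rw [hf, hpq]
      · intro p
        fin_cases p
        · simp
        · simp
  have h2 := sat_le h1
  simpa using h2

theorem antichain_copy {d k : ℕ} {F : Finset (Grid d k)} {x y : Grid d k} (hx : x ∈ F)
    (hy : y ∈ F) (h1 : ¬ x ≤ y) (h2 : ¬ y ≤ x) : StrongCopy (Unit ⊕ Unit) F := by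
  let f : Unit ⊕ Unit → Grid d k := fun p => match p with
    | Sum.inl _ => x
    | Sum.inr _ => y
  have hf : ∀ p q, p ≤ q ↔ f p ≤ f q := by
    rintro (⟨⟩ | ⟨⟩) (⟨⟩ | ⟨⟩)
    · exact ⟨fun _ => le_refl x, fun _ => le_refl _⟩
    · exact ⟨fun h => absurd h Sum.not_inl_le_inr, fun h => absurd h h1⟩
    · exact ⟨fun h => absurd h Sum.not_inr_le_inl, fun h => absurd h h2⟩
    · exact ⟨fun _ => le_refl y, fun _ => le_refl _⟩
  refine ⟨f, ?_, hf, ?_⟩
  · intro p q hpq
    apply le_antisymm
    · rw [hf, hpq]
    · rw [hf, hpq]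
  · rintro (⟨⟩ | ⟨⟩)
    · exact hx
    · exact hy

theorem antichain_copy_iff {d k : ℕ} {F : Finset (Grid d k)}
    (h : StrongCopy (Unit ⊕ Unit) F) : ∃ x ∈ F, ∃ y ∈ F, ¬ x ≤ y ∧ ¬ y ≤ x := by
  obtain ⟨f, -, hf, hm⟩ := h
  refine ⟨_, hm (Sum.inl ()), _, hm (Sum.inr ()), ?_, ?_⟩
  · rw [← hf]
    exact Sum.not_inl_le_inr
  · rw [← hf]
    exact Sum.not_inr_le_inl

/-- A family without two incomparable points has at most `d * k` elements (`d, k ≥ 1`). -/
theorem chain_card {d k : ℕ} (hd : 1 ≤ d) (hk : 1 ≤ k) {F : Finset (Grid d k)}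
    (h : ¬ StrongCopy (Unit ⊕ Unit) F) : F.card ≤ d * k := by
  classical
  have hcomp : ∀ x ∈ F, ∀ y ∈ F, x ≤ y ∨ y ≤ x := by
    intro x hx y hy
    by_contra hcon
    push Not at hcon
    exact h (antichain_copy hx hy hcon.1 hcon.2)
  have h1 : F.card ≤ (Finset.range (d * (k - 1) + 1)).card := by
    apply Finset.card_le_card_of_injOn (fun x => ∑ l, (x l).val)
    · intro x _
      rw [Finset.mem_coe, Finset.mem_range]
      have h2 : ∑ l, (x l).val ≤ ∑ _l : Fin d, (k - 1) := by
        apply Finset.sum_le_sum
        intro l _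
        have := (x l).isLt
        omega
      rw [Finset.sum_const, Finset.card_univ, Fintype.card_fin, smul_eq_mul] at h2
      exact Nat.lt_succ_of_le h2
    · intro x hx y hy hxy
      have hkey : ∀ u v : Grid d k, u ≤ v → ∑ l, (u l).val = ∑ l, (v l).val → u = v := by
        intro u v huv hs
        funext l
        apply Fin.ext
        by_contra hne
        have h3 : (u l).val < (v l).val := lt_of_le_of_ne (huv l) hne
        have h4 : ∑ l, (u l).val < ∑ l, (v l).val :=
          Finset.sum_lt_sum (fun i _ => huv i) ⟨l, Finset.mem_univ _, h3⟩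
        omega
      rcases hcomp x hx y hy with h3 | h3
      · exact hkey x y h3 hxy
      · exact (hkey y x h3 hxy.symm).symm
  rw [Finset.card_range] at h1
  have h2 : d * (k - 1) + 1 ≤ d * k := by
    have h3 : d * k = d * (k - 1) + d := by
      rw [← Nat.mul_succ]
      congr 1
      omega
    omega
  exact h1.trans h2

/-- The saturation number of the two-element antichain is linear. -/
theorem antichain_lower {d : ℕ} (hd : 1 ≤ d) (k : ℕ) : k ≤ sat (Unit ⊕ Unit) d k := by
  classical
  obtain ⟨F, hF, hFc⟩ := sat_spec (Unit ⊕ Unit) d k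
  rw [← hFc]
  have hcomp : ∀ x ∈ F, ∀ y ∈ F, x ≤ y ∨ y ≤ x := by
    intro x hx y hy
    by_contra hcon
    push Not at hcon
    exact hF.1 (antichain_copy hx hy hcon.1 hcon.2)
  let i₀ : Fin d := ⟨0, hd⟩
  have hval : ∀ c : Fin k, ∃ x ∈ F, x i₀ = c := by
    intro c
    by_contra hcon
    push Not at hcon
    -- the point just above all the points with smaller first coordinate
    let L := F.filter (fun z => z i₀ < c)
    let z : Grid d k := fun l => if l = i₀ then c else
      ⟨L.sup (fun w => (w l).val), by
        have hk : 0 < k := lt_of_le_of_lt (Nat.zero_le _) c.isLt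
        rw [Finset.sup_lt_iff hk]
        intro w _
        exact (w l).isLt⟩
    have hz0 : z i₀ = c := if_pos rfl
    have hzF : z ∉ F := fun h => hcon z h hz0
    have h1 : ∀ w ∈ F, w ≤ z ∨ z ≤ w := by
      intro w hw
      rcases lt_trichotomy (w i₀) c with h | h | h
      · left
        intro l
        by_cases hl : l = i₀
        · subst hl
          rw [hz0]
          exact h.le
        · show w l ≤ z l
          simp only [z]
          rw [if_neg hl, Fin.le_def]
          exact Finset.le_sup (f := fun w : Grid d k => (w l).val)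
            (Finset.mem_filter.mpr ⟨hw, h⟩)
      · exact absurd h (hcon w hw)
      · right
        intro l
        by_cases hl : l = i₀
        · subst hl
          rw [hz0]
          exact h.le
        · show z l ≤ w l
          simp only [z]
          rw [if_neg hl, Fin.le_def]
          apply Finset.sup_le
          intro v hv
          rw [Finset.mem_filter] at hv
          rcases hcomp v hv.1 w hw with h2 | h2
          · exact h2 l
          · exact absurd (lt_of_lt_of_le (hv.2.trans h) (h2 i₀)) (lt_irrefl _)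
    obtain ⟨x, hx, y, hy, hxy, hyx⟩ := antichain_copy_iff (hF.2 z hzF)
    rcases Finset.mem_insert.mp hx with rfl | hx
    · rcases Finset.mem_insert.mp hy with rfl | hy
      · exact hxy le_rfl
      · rcases h1 y hy with h2 | h2
        · exact hyx h2
        · exact hxy h2
    · rcases Finset.mem_insert.mp hy with rfl | hy
      · rcases h1 x hx with h2 | h2
        · exact hxy h2
        · exact hyx h2
      · rcases hcomp x hx y hy with h2 | h2
        · exact hxy h2
        · exact hyx h2
  have h2 : (Finset.univ : Finset (Fin k)) ⊆ F.image (fun z => z i₀) := by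
    intro c _
    obtain ⟨x, hx, hxc⟩ := hval c
    exact Finset.mem_image.mpr ⟨x, hx, hxc⟩
  have h3 := (Finset.card_le_card h2).trans Finset.card_image_le
  rwa [Finset.card_univ, Fintype.card_fin] at h3

theorem antichain_order {d : ℕ} (hd : 1 ≤ d) :
    SameOrder (sat (Unit ⊕ Unit) d) (fun k => k ^ 1) := by
  refine ⟨1, d, fun k hk => ⟨?_, ?_⟩⟩
  · show k ^ 1 ≤ 1 * sat (Unit ⊕ Unit) d k
    rw [one_mul, pow_one]
    exact antichain_lower hd k
  · obtain ⟨F, hF, hFc⟩ := sat_spec (Unit ⊕ Unit) d k
    show sat (Unit ⊕ Unit) d k ≤ d * k ^ 1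
    rw [← hFc, pow_one]
    exact chain_card hd hk hF.1

end Simple

end Helper57.GridSat
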