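import Pool.Agent.Helper57.GridSat.Upper

namespace Helper57.GridSat

/-- The maps `gb`, `gt` and the points `rb`, `rt` form an induced copy of the ordinal sum
`(Q + 1) ⊕ (R + 1)`. -/
structure IsCopy {Q R α : Type} [PartialOrder Q] [PartialOrder R] [PartialOrder α]
    (gb : Q → α) (rb : α) (gt : R → α) (rt : α) : Prop where
  hgb : ∀ s s', s ≤ s' ↔ gb s ≤ gb s'
  hgt : ∀ s s', s ≤ s' ↔ gt s ≤ gt s'
  hb1 : ∀ s, ¬ gb s ≤ rb
  hb2 : ∀ s, ¬ rb ≤ gb s
  ht1 : ∀ s, ¬ gt s ≤ rt
  ht2 : ∀ s, ¬ rt ≤ gt s
  h1 : ∀ s s', gb s < gt s'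
  h2 : ∀ s, gb s < rt
  h3 : ∀ s, rb < gt s
  h4 : rb < rt

/-- The ordinal sum `(Q + 1) ⊕ (R + 1)`. -/
abbrev TwoLayer (Q R : Type) : Type := (Q ⊕ Unit) ⊕ₗ (R ⊕ Unit)

theorem IsCopy.strongCopy {Q R : Type} [PartialOrder Q] [PartialOrder R] {d k : ℕ}
    {F : Finset (Grid d k)} {gb : Q → Grid d k} {rb : Grid d k} {gt : R → Grid d k}
    {rt : Grid d k} (h : IsCopy gb rb gt rt) (m1 : ∀ s, gb s ∈ F) (m2 : rb ∈ F)
    (m3 : ∀ s, gt s ∈ F) (m4 : rt ∈ F) : StrongCopy (TwoLayer Q R) F := by
  let f : TwoLayer Q R → Grid d k := fun p =>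
    match ofLex p with
    | Sum.inl (Sum.inl s) => gb s
    | Sum.inl (Sum.inr _) => rb
    | Sum.inr (Sum.inl s) => gt s
    | Sum.inr (Sum.inr _) => rt
  have hf : ∀ p q, p ≤ q ↔ f p ≤ f q := by
    intro p q
    induction p using Lex.rec with
    | _ p =>
    induction q using Lex.rec with
    | _ q =>
    rcases p with (p | p) | (p | p) <;> rcases q with (q | q) | (q | q)
    · rw [Sum.Lex.inl_le_inl_iff, Sum.inl_le_inl_iff]
      exact h.hgb p q
    · rw [Sum.Lex.inl_le_inl_iff]
      constructor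
      · intro h'
        exact absurd h' Sum.not_inl_le_inr
      · intro h'
        exact absurd h' (h.hb1 p)
    · constructor
      · intro _
        exact (h.h1 p q).le
      · intro _
        exact Sum.Lex.inl_le_inr _ _
    · constructor
      · intro _
        exact (h.h2 p).le
      · intro _
        exact Sum.Lex.inl_le_inr _ _
    · rw [Sum.Lex.inl_le_inl_iff]
      constructor
      · intro h'
        exact absurd h' Sum.not_inr_le_inl
      · intro h'
        exact absurd h' (h.hb2 q)
    · rw [Sum.Lex.inl_le_inl_iff]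
      constructor
      · intro _
        exact le_refl rb
      · intro _
        exact Sum.inr_le_inr_iff.mpr le_rfl
    · constructor
      · intro _
        exact (h.h3 q).le
      · intro _
        exact Sum.Lex.inl_le_inr _ _
    · constructor
      · intro _
        exact h.h4.le
      · intro _
        exact Sum.Lex.inl_le_inr _ _
    · constructor
      · intro h'
        exact absurd h' Sum.Lex.not_inr_le_inl
      · intro h'
        exact absurd h' (not_le_of_gt (h.h1 q p))
    · constructor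
      · intro h'
        exact absurd h' Sum.Lex.not_inr_le_inl
      · intro h'
        exact absurd h' (not_le_of_gt (h.h3 p))
    · rw [Sum.Lex.inr_le_inr_iff, Sum.inl_le_inl_iff]
      exact h.hgt p q
    · rw [Sum.Lex.inr_le_inr_iff]
      constructor
      · intro h'
        exact absurd h' Sum.not_inl_le_inr
      · intro h'
        exact absurd h' (h.ht1 p)
    · constructor
      · intro h'
        exact absurd h' Sum.Lex.not_inr_le_inl
      · intro h'
        exact absurd h' (not_le_of_gt (h.h2 q))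
    · constructor
      · intro h'
        exact absurd h' Sum.Lex.not_inr_le_inl
      · intro h'
        exact absurd h' (not_le_of_gt h.h4)
    · rw [Sum.Lex.inr_le_inr_iff]
      constructor
      · intro h'
        exact absurd h' Sum.not_inr_le_inl
      · intro h'
        exact absurd h' (h.ht2 q)
    · rw [Sum.Lex.inr_le_inr_iff]
      constructor
      · intro _
        exact le_refl rt
      · intro _
        exact Sum.inr_le_inr_iff.mpr le_rfl
  refine ⟨f, ?_, hf, ?_⟩
  · intro p q hpq
    apply le_antisymm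
    · rw [hf, hpq]
    · rw [hf, hpq]
  · intro p
    induction p using Lex.rec with
    | _ p =>
    rcases p with (p | p) | (p | p)
    · exact m1 p
    · exact m2
    · exact m3 p
    · exact m4

theorem StrongCopy.isCopy {Q R : Type} [PartialOrder Q] [PartialOrder R] {d k : ℕ}
    {F : Finset (Grid d k)} (h : StrongCopy (TwoLayer Q R) F) :
    ∃ (gb : Q → Grid d k) (rb : Grid d k) (gt : R → Grid d k) (rt : Grid d k),
      IsCopy gb rb gt rt ∧ (∀ s, gb s ∈ F) ∧ rb ∈ F ∧ (∀ s, gt s ∈ F) ∧ rt ∈ F ∧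
      ∀ x, (∀ s, gb s ≠ x) → rb ≠ x → (∀ s, gt s ≠ x) → rt ≠ x →
        StrongCopy (TwoLayer Q R) (F.erase x) := by
  obtain ⟨f, hinj, hf, hm⟩ := h
  have hlt : ∀ p q, p < q → f p < f q := by
    intro p q hpq
    rw [lt_iff_le_not_ge] at hpq ⊢
    rw [← hf, ← hf]
    exact hpq
  refine ⟨fun s => f (toLex (Sum.inl (Sum.inl s))), f (toLex (Sum.inl (Sum.inr ()))),
    fun s => f (toLex (Sum.inr (Sum.inl s))), f (toLex (Sum.inr (Sum.inr ()))), ?_,
    fun s => hm _, hm _, fun s => hm _, hm _, ?_⟩
  · constructor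
    · intro s s'
      rw [← hf, Sum.Lex.inl_le_inl_iff, Sum.inl_le_inl_iff]
    · intro s s'
      rw [← hf, Sum.Lex.inr_le_inr_iff, Sum.inl_le_inl_iff]
    · intro s h
      rw [← hf, Sum.Lex.inl_le_inl_iff] at h
      exact Sum.not_inl_le_inr h
    · intro s h
      rw [← hf, Sum.Lex.inl_le_inl_iff] at h
      exact Sum.not_inr_le_inl h
    · intro s h
      rw [← hf, Sum.Lex.inr_le_inr_iff] at h
      exact Sum.not_inl_le_inr h
    · intro s h
      rw [← hf, Sum.Lex.inr_le_inr_iff] at h
      exact Sum.not_inr_le_inl h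
    · intro s s'
      exact hlt _ _ (Sum.Lex.inl_lt_inr _ _)
    · intro s
      exact hlt _ _ (Sum.Lex.inl_lt_inr _ _)
    · intro s
      exact hlt _ _ (Sum.Lex.inl_lt_inr _ _)
    · exact hlt _ _ (Sum.Lex.inl_lt_inr _ _)
  · intro x h1 h2 h3 h4
    refine ⟨f, hinj, hf, ?_⟩
    intro p
    refine Finset.mem_erase.mpr ⟨?_, hm p⟩
    induction p using Lex.rec with
    | _ p =>
    rcases p with (p | p) | (p | p)
    · exact h1 p
    · exact h2
    · exact h3 p
    · exact h4

end Helper57.GridSat
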