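import Pool.Agent.Helper57.GridSat.Poset

namespace Helper57.GridSat

/-- The proper nonempty subsets of an `n`-element set, ordered by inclusion. -/
abbrev Mid (n : ℕ) : Type := {s : Finset (Fin n) // s.Nonempty ∧ s ≠ Finset.univ}

section Defs

variable {d n : ℕ}

/-- Lowest part of the template: copies of `Mid n`. -/
def kap (e : Fin n → Fin d) (s : Finset (Fin n)) (l : Fin d) : ℕ :=
  if ∃ i ∈ s, e i = l then 5 else if ∃ i, e i = l then 1 else 0

/-- Lowest part of the template: centres. -/
def cen (e : Fin n → Fin d) (l : Fin d) : ℕ := if ∃ i, e i = l then 2 else 0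

/-- Second part of the template: copies of `Mid n`. -/
def del (k : ℕ) (A : Finset (Fin d)) (s : Finset (Fin n)) (l : Fin d) : ℕ :=
  (if l ∈ A then 3 else if ∀ i < l, i ∈ A then 6 else k - 5) +
    (if ∃ i ∈ s, i.val = l.val then 1 else 0)

/-- Third part of the template: copies of the Boolean lattice. -/
def eps (k v : ℕ) (s : Finset (Fin d)) (l : Fin d) : ℕ :=
  (if l.val < v then 6 + 2 * (d - v) else k - 3 - 2 * v) + (if l ∈ s then 1 else 0)

/-- Fourth part of the template: single points. -/
def tau (k : ℕ) (A : Finset (Fin d)) (l : Fin d) : ℕ := if l ∈ A then 4 else k - 1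

/-- The zero set of a point. -/
def zs (y : Fin d → ℕ) : Finset (Fin d) := Finset.univ.filter (fun l => y l = 0)

/-- The lowest part of the template. -/
def KP (n : ℕ) (y : Fin d → ℕ) : Prop :=
  (zs y).card = d - n ∧ ((∀ l, y l = 0 ∨ y l = 2) ∨
    ((∀ l, y l = 0 ∨ y l = 1 ∨ y l = 5) ∧ (∃ l, y l = 1) ∧ ∃ l, y l = 5))

/-- The template. -/
def InT (n k : ℕ) (y : Fin d → ℕ) : Prop :=
  KP n y ∨ (∃ A : Finset (Fin d), A.card = d - n + 1 ∧ ∃ s : Mid n, y = del k A s.1) ∨
    (∃ v < d, ∃ s, y = eps k v s) ∨ ∃ A : Finset (Fin d), A.card = d - n + 1 ∧ y = tau k A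

end Defs

section Bounds

variable {d n k : ℕ}

theorem KP.le_five {y : Fin d → ℕ} (h : KP n y) (l : Fin d) : y l ≤ 5 := by
  rcases h.2 with h | h
  · have := h l
    omega
  · have := h.1 l
    omega

theorem KP.le_two {y : Fin d → ℕ} (h : KP n y) (l : Fin d) (hl : y l ≤ 4) : y l ≤ 2 := by
  rcases h.2 with h | h
  · have := h l
    omega
  · have := h.1 l
    omega

theorem del_mem {A : Finset (Fin d)} {s : Finset (Fin n)} {l : Fin d} (hl : l ∈ A) :
    3 ≤ del k A s l ∧ del k A s l ≤ 4 := by
  unfold del
  rw [if_pos hl]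
  split_ifs <;> omega

theorem del_notMem (hk : 4 * d + 12 ≤ k) {A : Finset (Fin d)} {s : Finset (Fin n)} {l : Fin d}
    (hl : l ∉ A) : 6 ≤ del k A s l ∧ del k A s l ≤ k - 4 := by
  unfold del
  rw [if_neg hl]
  split_ifs <;> omega

theorem eps_bounds (hk : 4 * d + 12 ≤ k) {v : ℕ} (hv : v < d) {s : Finset (Fin d)} {l : Fin d} :
    6 ≤ eps k v s l ∧ eps k v s l ≤ k - 2 := by
  unfold eps
  split_ifs <;> omega

theorem tau_mem {A : Finset (Fin d)} {l : Fin d} (hl : l ∈ A) : tau k A l = 4 := if_pos hl

theorem tau_notMem {A : Finset (Fin d)} {l : Fin d} (hl : l ∉ A) : tau k A l = k - 1 :=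
  if_neg hl

/-- All template points have only low or high coordinates. -/
theorem InT.extreme (hk : 4 * d + 12 ≤ k) {y : Fin d → ℕ} (h : InT n k y) (l : Fin d) :
    (y l < 2 * d + 6 ∨ k - (2 * d + 6) ≤ y l) ∧ y l < k := by
  rcases h with h | ⟨A, hA, s, rfl⟩ | ⟨v, hv, s, rfl⟩ | ⟨A, hA, rfl⟩
  · have := h.le_five l
    omega
  · have hl := l.isLt
    unfold del
    split_ifs <;> omega
  · have hl := l.isLt
    unfold eps
    split_ifs <;> omega
  · unfold tau
    split_ifs <;> omega

end Bounds

section Free

variable {d n k : ℕ}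

/-- The part of the template which may lie below `tau k A` or an element of `del k A`. -/
def Low (n k : ℕ) (A : Finset (Fin d)) (y : Fin d → ℕ) : Prop :=
  (KP n y ∧ ∀ l ∈ A, y l ≤ 2) ∨ ∃ s : Mid n, y = del k A s.1

theorem exists_mem_diff {A B : Finset (Fin d)} (h : A.card = B.card) (hne : A ≠ B) :
    ∃ l ∈ A, l ∉ B := by
  by_contra hcon
  push Not at hcon
  exact hne (Finset.eq_of_subset_of_card_le hcon h.ge)

theorem low_of_le_four (hk : 4 * d + 12 ≤ k) {A : Finset (Fin d)} (hA : A.card = d - n + 1)
    {y : Fin d → ℕ} (hy : InT n k y) (h4 : ∀ l ∈ A, y l ≤ 4) (hne : y ≠ tau k A) :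
    Low n k A y := by
  have hAne : A.Nonempty := by
    rw [← Finset.card_pos]
    omega
  rcases hy with h | ⟨B, hB, s, rfl⟩ | ⟨v, hv, s, rfl⟩ | ⟨B, hB, rfl⟩
  · exact Or.inl ⟨h, fun l hl => h.le_two l (h4 l hl)⟩
  · by_cases hAB : A = B
    · subst hAB
      exact Or.inr ⟨s, rfl⟩
    · obtain ⟨l, hl, hlB⟩ := exists_mem_diff (hA.trans hB.symm) hAB
      have h1 := h4 l hl
      have h2 := (del_notMem (n := n) (s := s.1) hk hlB).1
      omega
  · obtain ⟨l, hl⟩ := hAne
    have h1 := h4 l hl
    have h2 := (eps_bounds (s := s) (l := l) hk hv).1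
    omega
  · by_cases hAB : A = B
    · subst hAB
      exact absurd rfl hne
    · obtain ⟨l, hl, hlB⟩ := exists_mem_diff (hA.trans hB.symm) hAB
      have h1 := h4 l hl
      rw [tau_notMem hlB] at h1
      omega

/-- The proper nonempty subsets of a set with at least three elements form a connected
poset. -/
theorem mid_connected {γ : Type} (hn : 3 ≤ n) (φ : Mid n → γ)
    (h : ∀ s s' : Mid n, s ≤ s' → φ s = φ s') (s s' : Mid n) : φ s = φ s' := by
  have hsing : ∀ i : Fin n, ({i} : Finset (Fin n)).Nonempty ∧ ({i} : Finset (Fin n)) ≠ Finset.univ := by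
    intro i
    refine ⟨Finset.singleton_nonempty i, fun hcon => ?_⟩
    have := congrArg Finset.card hcon
    rw [Finset.card_singleton, Finset.card_univ, Fintype.card_fin] at this
    omega
  have hpair : ∀ i j : Fin n, ({i, j} : Finset (Fin n)).Nonempty ∧
      ({i, j} : Finset (Fin n)) ≠ Finset.univ := by
    intro i j
    refine ⟨Finset.insert_nonempty _ _, fun hcon => ?_⟩
    have h1 := congrArg Finset.card hcon
    have h2 := Finset.card_le_two (a := i) (b := j)
    rw [Finset.card_univ, Fintype.card_fin] at h1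
    omega
  have h1 : ∀ i j : Fin n, φ ⟨{i}, hsing i⟩ = φ ⟨{j}, hsing j⟩ := by
    intro i j
    have a1 : φ ⟨{i}, hsing i⟩ = φ ⟨{i, j}, hpair i j⟩ := by
      apply h
      rw [← Subtype.coe_le_coe]
      simp
    have a2 : φ ⟨{j}, hsing j⟩ = φ ⟨{i, j}, hpair i j⟩ := by
      apply h
      rw [← Subtype.coe_le_coe]
      simp
    rw [a1, a2]
  have h2 : ∀ t : Mid n, ∃ i, φ ⟨{i}, hsing i⟩ = φ t := by
    intro t
    obtain ⟨i, hi⟩ := t.2.1
    refine ⟨i, ?_⟩
    apply h
    rw [← Subtype.coe_le_coe]
    simpa using hi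
  obtain ⟨i, hi⟩ := h2 s
  obtain ⟨j, hj⟩ := h2 s'
  rw [← hi, ← hj]
  exact h1 i j

theorem card_mid (hn : 3 ≤ n) : Fintype.card (Mid n) = 2 ^ n - 2 := by
  classical
  rw [Fintype.card_subtype]
  have h1 : (Finset.univ.filter (fun s : Finset (Fin n) => s.Nonempty ∧ s ≠ Finset.univ)) =
      (Finset.univ.erase ∅).erase Finset.univ := by
    ext s
    simp only [Finset.mem_filter, Finset.mem_univ, true_and, Finset.mem_erase, ne_eq,
      Finset.nonempty_iff_ne_empty]
    tauto
  have h2 : (Finset.univ : Finset (Fin n)) ∈ (Finset.univ : Finset (Finset (Fin n))).erase ∅ := by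
    rw [Finset.mem_erase]
    refine ⟨?_, Finset.mem_univ _⟩
    intro hcon
    have := congrArg Finset.card hcon
    rw [Finset.card_univ, Fintype.card_fin, Finset.card_empty] at this
    omega
  rw [h1, Finset.card_erase_of_mem h2, Finset.card_erase_of_mem (Finset.mem_univ _),
    Finset.card_univ, Fintype.card_finset, Fintype.card_fin]
  omega

/-- The part `y i ≤ 2` of one facet of the lowest part is too small to contain `Mid n`. -/
theorem facet_small (hn : 3 ≤ n) (hnd : n ≤ d) (g : Mid n → Fin d → ℕ)
    (hg : Function.Injective g) (hK : ∀ s, KP n (g s)) (Z : Finset (Fin d))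
    (hZ : ∀ s, zs (g s) = Z) (i : Fin d) (hi : i ∉ Z) (h2 : ∀ s, g s i ≤ 2) : False := by
  classical
  have hZc : Z.card = d - n := by
    have h3 : Fintype.card (Mid n) = 2 ^ n - 2 := card_mid hn
    have h4 : 2 ^ 3 ≤ 2 ^ n := Nat.pow_le_pow_right (by norm_num) hn
    have h5 : 0 < Fintype.card (Mid n) := by omega
    obtain ⟨s⟩ := Fintype.card_pos_iff.mp h5
    rw [← hZ s]
    exact (hK s).1
  set W : Finset (Fin d) := Zᶜ.erase i with hW
  have hWc : W.card = n - 1 := by
    rw [hW, Finset.card_erase_of_mem (Finset.mem_compl.mpr hi), Finset.card_compl,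
      Fintype.card_fin, hZc]
    omega
  set S : Finset (Option (Finset (Fin d))) := insert none (W.powerset.image some) with hS
  have hSc : S.card ≤ 2 ^ (n - 1) + 1 := by
    refine (Finset.card_insert_le _ _).trans ?_
    refine Nat.add_le_add_right (Finset.card_image_le.trans ?_) 1
    rw [Finset.card_powerset, hWc]
  let φ : Mid n → Option (Finset (Fin d)) := fun s =>
    if ∃ l, g s l = 2 then none else some (Finset.univ.filter (fun l => g s l = 5))
  have hzero : ∀ s l, g s l = 0 ↔ l ∈ Z := by
    intro s l
    rw [← hZ s]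
    simp [zs]
  have h3 : (Finset.univ : Finset (Mid n)).card ≤ S.card := by
    apply Finset.card_le_card_of_injOn φ
    · intro s _
      simp only [φ, hS, Finset.coe_insert, Finset.coe_image, Set.mem_insert_iff]
      by_cases h : ∃ l, g s l = 2
      · rw [if_pos h]
        exact Or.inl rfl
      · rw [if_neg h]
        right
        refine ⟨_, ?_, rfl⟩
        rw [Finset.mem_coe, Finset.mem_powerset]
        intro l hl
        rw [Finset.mem_filter] at hl
        rw [hW, Finset.mem_erase, Finset.mem_compl, ← hzero s]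
        constructor
        · rintro rfl
          have := h2 s
          omega
        · omega
    · intro s _ t _ hst
      simp only [φ] at hst
      apply hg
      by_cases h : ∃ l, g s l = 2
      · rw [if_pos h] at hst
        by_cases h' : ∃ l, g t l = 2
        · -- both centres
          have key : ∀ u, (∃ l, g u l = 2) → ∀ l, g u l = if l ∈ Z then 0 else 2 := by
            rintro u ⟨l₀, hl₀⟩ l
            rcases (hK u).2 with h5 | h5
            · by_cases hl : l ∈ Z
              · rw [if_pos hl, hzero]
                exact hl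
              · rw [if_neg hl]
                rw [← hzero u] at hl
                have := h5 l
                omega
            · have := h5.1 l₀
              omega
          funext l
          rw [key s h, key t h']
        · rw [if_neg h'] at hst
          exact absurd hst (by simp)
      · rw [if_neg h] at hst
        by_cases h' : ∃ l, g t l = 2
        · rw [if_pos h'] at hst
          exact absurd hst (by simp)
        · rw [if_neg h'] at hst
          have hst' := Option.some.inj hst
          have key : ∀ u, (¬ ∃ l, g u l = 2) → ∀ l, g u l = 0 ∨ g u l = 1 ∨ g u l = 5 := by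
            intro u hu l
            rcases (hK u).2 with h5 | h5
            · rcases h5 l with h6 | h6
              · exact Or.inl h6
              · exact absurd ⟨l, h6⟩ hu
            · exact h5.1 l
          funext l
          have e1 := key s h l
          have e2 := key t h' l
          have e3 := hzero s l
          have e4 := hzero t l
          have e5 : g s l = 5 ↔ g t l = 5 := by
            have := Finset.ext_iff.mp hst' l
            simpa using this
          have e6 : g s l = 0 ↔ g t l = 0 := e3.trans e4.symm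
          omega
  rw [Finset.card_univ, card_mid hn] at h3
  have h4 : 2 ^ n = 2 * 2 ^ (n - 1) := by
    rw [← pow_succ']
    congr 1
    omega
  have h5 : 2 ^ 2 ≤ 2 ^ (n - 1) := Nat.pow_le_pow_right (by norm_num) (by omega)
  omega

theorem zs_eq_of_le {y z : Fin d → ℕ} (hy : KP n y) (hz : KP n z) (h : y ≤ z) :
    zs y = zs z := by
  symm
  apply Finset.eq_of_subset_of_card_le
  · intro l hl
    simp only [zs, Finset.mem_filter, Finset.mem_univ, true_and] at hl ⊢
    have : y l ≤ z l := h l
    omega
  · rw [hy.1, hz.1]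

/-- The part `Low` of the template contains no induced copy of `Mid n + 1`. -/
theorem low_free (hn : 3 ≤ n) (hnd : n ≤ d) (hk : 4 * d + 12 ≤ k) {A : Finset (Fin d)}
    (hA : A.card = d - n + 1) (gb : Mid n → Fin d → ℕ) (rb : Fin d → ℕ)
    (hgb : ∀ s s', s ≤ s' ↔ gb s ≤ gb s') (hb1 : ∀ s, ¬ gb s ≤ rb) (hb2 : ∀ s, ¬ rb ≤ gb s)
    (hlow : ∀ s, Low n k A (gb s)) (hlow' : Low n k A rb) : False := by
  classical
  have hinj : Function.Injective gb := by
    intro s s' h
    apply le_antisymm
    · rw [hgb, h]
    · rw [hgb, h]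
  have hcomp : ∀ y z : Fin d → ℕ, (KP n y ∧ ∀ l ∈ A, y l ≤ 2) → (∃ s : Mid n, z = del k A s.1) →
      y ≤ z := by
    rintro y z ⟨h1, h2⟩ ⟨s, rfl⟩ l
    by_cases hl : l ∈ A
    · exact (h2 l hl).trans ((by norm_num : 2 ≤ 3).trans (del_mem hl).1)
    · exact (h1.le_five l).trans ((by norm_num : 5 ≤ 6).trans (del_notMem hk hl).1)
  rcases hlow' with h | h
  · have h1 : ∀ s, KP n (gb s) ∧ ∀ l ∈ A, gb s l ≤ 2 := by
      intro s
      rcases hlow s with h' | h'
      · exact h'
      · exact absurd (hcomp _ _ h h') (hb2 s)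
    have h2 : ∀ s s', zs (gb s) = zs (gb s') := by
      apply mid_connected hn (fun s => zs (gb s))
      intro s s' hss
      exact zs_eq_of_le (h1 s).1 (h1 s').1 ((hgb s s').mp hss)
    have h5 : 0 < Fintype.card (Mid n) := by
      have h4 : 2 ^ 3 ≤ 2 ^ n := Nat.pow_le_pow_right (by norm_num) hn
      rw [card_mid hn]
      omega
    obtain ⟨s₀⟩ := Fintype.card_pos_iff.mp h5
    have h6 : ∃ i ∈ A, i ∉ zs (gb s₀) := by
      by_contra hcon
      push Not at hcon
      have := Finset.card_le_card hcon
      rw [(h1 s₀).1.1, hA] at this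
      omega
    obtain ⟨i, hiA, hi⟩ := h6
    exact facet_small hn hnd gb hinj (fun s => (h1 s).1) (zs (gb s₀)) (fun s => h2 s s₀) i hi
      (fun s => (h1 s).2 i hiA)
  · have h1 : ∀ s, ∃ t : Mid n, gb s = del k A t.1 := by
      intro s
      rcases hlow s with h' | h'
      · exact absurd (hcomp _ _ h' h) (hb1 s)
      · exact h'
    choose σ hσ using h1
    have h2 : Function.Injective σ := by
      intro s s' hss
      apply hinj
      rw [hσ, hσ, hss]
    obtain ⟨t, ht⟩ := h
    obtain ⟨s, hs⟩ := (Finite.injective_iff_surjective.mp h2) t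
    apply hb1 s
    rw [hσ, hs, ht]

theorem eps_lt (hk : 4 * d + 12 ≤ k) {v w : ℕ} (hv : v < d) (hw : w < v)
    (s t : Finset (Fin d)) : eps k v s ≤ eps k w t := by
  intro l
  show eps k v s l ≤ eps k w t l
  unfold eps
  have := l.isLt
  split_ifs <;> omega

/-- The template contains no induced copy of `(Mid n + 1) ⊕ (2^d + 1)`. -/
theorem template_free (hn : 3 ≤ n) (hnd : n ≤ d) (hk : 4 * d + 12 ≤ k)
    {gb : Mid n → Fin d → ℕ} {rb : Fin d → ℕ} {gt : Finset (Fin d) → Fin d → ℕ}
    {rt : Fin d → ℕ} (h : IsCopy gb rb gt rt) (m1 : ∀ s, InT n k (gb s)) (m2 : InT n k rb)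
    (m3 : ∀ s, InT n k (gt s)) (m4 : InT n k rt) : False := by
  classical
  have hinj : Function.Injective gb := by
    intro s s' hss
    apply le_antisymm
    · rw [h.hgb, hss]
    · rw [h.hgb, hss]
  -- an element above the whole bottom part lies in the third part
  have hup : ∀ u, InT n k u → (∀ s, gb s < u) → rb < u → ∃ v < d, ∃ s, u = eps k v s := by
    intro u hu hgu hru
    rcases hu with hu | ⟨A, hA, s, rfl⟩ | hu | ⟨A, hA, rfl⟩
    · exfalso
      -- everything below `u` is in the same facet
      have h1 : ∀ y, InT n k y → y ≤ u → KP n y := by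
        intro y hy hyu
        rcases hy with hy | ⟨A, hA, s, rfl⟩ | ⟨v, hv, s, rfl⟩ | ⟨A, hA, rfl⟩
        · exact hy
        · exfalso
          have h2 : ∃ l : Fin d, l ∉ A := by
            by_contra hcon
            push Not at hcon
            have := Finset.card_le_card (fun l (_ : l ∈ Finset.univ) => hcon l)
            rw [Finset.card_univ, Fintype.card_fin, hA] at this
            omega
          obtain ⟨l, hl⟩ := h2
          have h3 : del k A s.1 l ≤ u l := hyu l
          have h4 := (del_notMem (n := n) (s := s.1) hk hl).1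
          have h5 := hu.le_five l
          omega
        · exfalso
          have h3 : eps k v s ⟨v, hv⟩ ≤ u ⟨v, hv⟩ := hyu ⟨v, hv⟩
          have h4 := (eps_bounds (s := s) (l := ⟨v, hv⟩) hk hv).1
          have h5 := hu.le_five ⟨v, hv⟩
          omega
        · exfalso
          have h2 : ∃ l : Fin d, l ∉ A := by
            by_contra hcon
            push Not at hcon
            have := Finset.card_le_card (fun l (_ : l ∈ Finset.univ) => hcon l)
            rw [Finset.card_univ, Fintype.card_fin, hA] at this
            omega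
          obtain ⟨l, hl⟩ := h2
          have h3 : tau k A l ≤ u l := hyu l
          rw [tau_notMem hl] at h3
          have h5 := hu.le_five l
          omega
      have h2 : ∀ s, KP n (gb s) := fun s => h1 _ (m1 s) (hgu s).le
      have h3 : ∀ s, zs (gb s) = zs u := fun s => zs_eq_of_le (h2 s) hu (hgu s).le
      have h5 : 0 < Fintype.card (Mid n) := by
        have h4 : 2 ^ 3 ≤ 2 ^ n := Nat.pow_le_pow_right (by norm_num) hn
        rw [card_mid hn]
        omega
      obtain ⟨s₀⟩ := Fintype.card_pos_iff.mp h5
      rcases hu.2 with h6 | h6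
      · -- `u` is a centre
        have h7 : ¬ u ≤ gb s₀ := not_le_of_gt (hgu s₀)
        apply h7
        intro l
        show u l ≤ gb s₀ l
        have h8 : gb s₀ l ≤ u l := (hgu s₀).le l
        have h9 : gb s₀ l = 0 ↔ u l = 0 := by
          have := Finset.ext_iff.mp (h3 s₀) l
          simpa [zs] using this
        have h10 := h6 l
        rcases (h2 s₀).2 with h11 | h11
        · have := h11 l
          omega
        · obtain ⟨l', hl'⟩ := h11.2.2
          have h12 : gb s₀ l' ≤ u l' := (hgu s₀).le l'
          have h13 := h6 l'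
          omega
      · obtain ⟨i, hi⟩ := h6.2.1
        apply facet_small hn hnd gb hinj h2 (zs u) h3 i
        · simp [zs, hi]
        · intro s
          have : gb s i ≤ u i := (hgu s).le i
          omega
    · exfalso
      have h1 : ∀ y, InT n k y → y ≤ del k A s.1 → Low n k A y := by
        intro y hy hyu
        apply low_of_le_four hk hA hy
        · intro l hl
          exact (hyu l).trans (del_mem hl).2
        · rintro rfl
          have h2 : ∃ l : Fin d, l ∉ A := by
            by_contra hcon
            push Not at hcon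
            have := Finset.card_le_card (fun l (_ : l ∈ Finset.univ) => hcon l)
            rw [Finset.card_univ, Fintype.card_fin, hA] at this
            omega
          obtain ⟨l, hl⟩ := h2
          have h3 : tau k A l ≤ del k A s.1 l := hyu l
          rw [tau_notMem hl] at h3
          have h4 := (del_notMem (n := n) (s := s.1) hk hl).2
          omega
      exact low_free hn hnd hk hA gb rb h.hgb h.hb1 h.hb2
        (fun t => h1 _ (m1 t) (hgu t).le) (h1 _ m2 hru.le)
    · exact hu
    · exfalso
      have h1 : ∀ y, InT n k y → y < tau k A → Low n k A y := by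
        intro y hy hyu
        apply low_of_le_four hk hA hy
        · intro l hl
          have := hyu.le l
          rwa [tau_mem hl] at this
        · exact hyu.ne
      exact low_free hn hnd hk hA gb rb h.hgb h.hb1 h.hb2
        (fun t => h1 _ (m1 t) (hgu t)) (h1 _ m2 hru)
  obtain ⟨v₀, hv₀, s₀, hs₀⟩ := hup rt m4 h.h2 h.h4
  have h3 : ∀ s, ∃ t, gt s = eps k v₀ t := by
    intro s
    obtain ⟨v, hv, t, ht⟩ := hup (gt s) (m3 s) (fun r => h.h1 r s) (h.h3 s)
    rcases lt_trichotomy v v₀ with hlt | heq | hgt
    · exfalso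
      apply h.ht2 s
      rw [ht, hs₀]
      exact eps_lt hk hv₀ hlt _ _
    · subst heq
      exact ⟨t, ht⟩
    · exfalso
      apply h.ht1 s
      rw [ht, hs₀]
      exact eps_lt hk hv hgt _ _
  choose σ hσ using h3
  have h4 : Function.Injective σ := by
    intro s s' hss
    have h5 : gt s = gt s' := by rw [hσ, hσ, hss]
    apply le_antisymm
    · rw [h.hgt, h5]
    · rw [h.hgt, h5]
  obtain ⟨s, hs⟩ := (Finite.injective_iff_surjective.mp h4) s₀
  apply h.ht1 s
  rw [hσ, hs, hs₀]

end Free

end Helper57.GridSat
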