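import Pool.Agent.Helper57.GridSat.Base

namespace Helper57.GridSat

section Count

theorem card_coord (d k : ℕ) (S : Finset (Fin k)) (i : Fin d) :
    (Finset.univ.filter (fun x : Grid d k => x i ∈ S)).card = S.card * k ^ (d - 1) := by
  classical
  have h1 : (Finset.univ.filter (fun x : Grid d k => x i ∈ S)) =
      Fintype.piFinset (fun j => if j = i then S else Finset.univ) := by
    ext x
    rw [Fintype.mem_piFinset, Finset.mem_filter]
    constructor
    · rintro ⟨-, h⟩ j
      by_cases hj : j = i
      · subst hj
        simpa using h
      · simp [hj]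
    · intro h
      have := h i
      simpa using this
  rw [h1, Fintype.card_piFinset, ← Finset.mul_prod_erase _ _ (Finset.mem_univ i), if_pos rfl]
  congr 1
  have h2 : ∀ j ∈ Finset.univ.erase i,
      (if j = i then S else (Finset.univ : Finset (Fin k))).card = k := by
    intro j hj
    rw [if_neg (Finset.ne_of_mem_erase hj)]
    simp
  rw [Finset.prod_congr rfl h2, Finset.prod_const, Finset.card_erase_of_mem (Finset.mem_univ i)]
  simp

theorem card_edge (k M : ℕ) :
    (Finset.univ.filter (fun v : Fin k => v.val < M ∨ k - M ≤ v.val)).card ≤ 2 * M := by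
  classical
  have h1 : (Finset.univ.filter (fun v : Fin k => v.val < M ∨ k - M ≤ v.val)).card ≤
      (Finset.range M ∪ Finset.Ico (k - M) k).card := by
    apply Finset.card_le_card_of_injOn (fun v => v.val)
    · intro v hv
      have hv' : v.val < M ∨ k - M ≤ v.val := by simpa using hv
      have := v.isLt
      simp only [Finset.coe_union, Finset.coe_range, Finset.coe_Ico, Set.mem_union, Set.mem_Iio,
        Set.mem_Ico]
      rcases hv' with h | h
      · exact Or.inl h
      · exact Or.inr ⟨h, this⟩
    · intro v _ w _ hvw
      exact Fin.ext hvw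
  have h2 := Finset.card_union_le (Finset.range M) (Finset.Ico (k - M) k)
  rw [Finset.card_range, Nat.card_Ico] at h2
  omega

theorem card_shell (d k M : ℕ) :
    (Finset.univ.filter (fun x : Grid d k => ∃ i, (x i).val < M ∨ k - M ≤ (x i).val)).card ≤
      d * (2 * M * k ^ (d - 1)) := by
  classical
  set S := Finset.univ.filter (fun v : Fin k => v.val < M ∨ k - M ≤ v.val) with hS
  have h1 : (Finset.univ.filter
      (fun x : Grid d k => ∃ i, (x i).val < M ∨ k - M ≤ (x i).val)) ⊆
      Finset.univ.biUnion (fun i : Fin d => Finset.univ.filter (fun x : Grid d k => x i ∈ S)) := by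
    intro x hx
    rw [Finset.mem_filter] at hx
    obtain ⟨-, i, hi⟩ := hx
    rw [Finset.mem_biUnion]
    refine ⟨i, Finset.mem_univ _, ?_⟩
    rw [Finset.mem_filter]
    refine ⟨Finset.mem_univ _, ?_⟩
    rw [hS, Finset.mem_filter]
    exact ⟨Finset.mem_univ _, hi⟩
  refine (Finset.card_le_card h1).trans (Finset.card_biUnion_le.trans ?_)
  have h2 : ∀ i ∈ (Finset.univ : Finset (Fin d)),
      (Finset.univ.filter (fun x : Grid d k => x i ∈ S)).card ≤ 2 * M * k ^ (d - 1) := by
    intro i _
    rw [card_coord]
    exact Nat.mul_le_mul_right _ (card_edge k M)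
  refine (Finset.sum_le_sum h2).trans ?_
  simp

end Count

/-- If some strong copy of `P` fits into a `d`-dimensional grid, then all but
`O(k^(d-1))` points of `[k]^d` can be completed by `|P| - 1` points. -/
theorem upper_bound {P : Type} [PartialOrder P] [Fintype P] [Nonempty P] {d N : ℕ} (hd : 1 ≤ d)
    (h : StrongCopy P (Finset.univ : Finset (Grid d N))) :
    ∃ C : ℕ, ∀ k, 1 ≤ k → sat P d k ≤ C * k ^ (d - 1) := by
  classical
  obtain ⟨f, -, hf, -⟩ := h
  obtain ⟨p₀⟩ := ‹Nonempty P›
  let e : P → ℕ := fun q => if p₀ < q then 2 else if q = p₀ then 1 else 0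
  have he2 : ∀ q, e q ≤ 2 := by
    intro q
    simp only [e]
    split_ifs <;> omega
  have he0 : e p₀ = 1 := by simp [e]
  have he1 : ∀ q, q ≠ p₀ → e q ≠ 1 := by
    intro q hq
    simp only [e]
    rw [if_neg hq]
    split_ifs <;> omega
  have hemono : ∀ q r, q ≤ r → e q ≤ e r := by
    intro q r hqr
    simp only [e]
    by_cases h1 : p₀ < q
    · rw [if_pos h1, if_pos (h1.trans_le hqr)]
    · rw [if_neg h1]
      by_cases h2 : q = p₀
      · subst h2
        rw [if_pos rfl]
        by_cases h3 : q < r
        · rw [if_pos h3]
          omega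
        · have : r = q := (eq_of_le_of_not_lt hqr h3).symm
          rw [if_neg h3, if_pos this]
      · rw [if_neg h2]
        exact Nat.zero_le _
  let g : P → Fin d → ℕ := fun q i => 3 * (f q i).val + e q
  have hg : ∀ q r, q ≤ r ↔ ∀ i, g q i ≤ g r i := by
    intro q r
    rw [hf]
    constructor
    · intro hqr i
      have h1 : (f q i).val ≤ (f r i).val := hqr i
      have h2 := hemono q r ((hf q r).mpr hqr)
      simp only [g]
      omega
    · intro hqr i
      have h1 := hqr i
      simp only [g] at h1
      have h2 := he2 r
      rw [Fin.le_def]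
      omega
  have hgne : ∀ q, q ≠ p₀ → ∀ i, g q i ≠ g p₀ i := by
    intro q hq i
    simp only [g]
    have h1 := he1 q hq
    have h2 := he2 q
    rw [he0]
    omega
  set M := 3 * N with hM
  have hglt : ∀ q i, g q i < M := by
    intro q i
    simp only [g]
    have h1 := (f q i).isLt
    have h2 := he2 q
    omega
  refine ⟨M + (Fintype.card P + d * (2 * M)), fun k hk => ?_⟩
  have hpow : 1 ≤ k ^ (d - 1) := Nat.one_le_pow _ _ hk
  rcases Nat.lt_or_ge k M with hkM | hkM
  · refine (sat_le_pow P d k).trans ?_
    have h1 : k ^ d = k * k ^ (d - 1) := by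
      rw [← pow_succ']
      congr 1
      omega
    rw [h1, add_mul]
    exact (Nat.mul_le_mul_right _ hkM.le).trans (Nat.le_add_right _ _)
  · set D := k - M with hD
    have hDk : M + D = k := by omega
    let hh : P → Grid d k := fun q i =>
      ⟨if g q i < g p₀ i then g q i else g q i + D, by
        have h1 := hglt q i
        split_ifs <;> omega⟩
    have hhv : ∀ q i, (hh q i).val = if g q i < g p₀ i then g q i else g q i + D :=
      fun _ _ => rfl
    set F₀ : Finset (Grid d k) := (Finset.univ.erase p₀).image hh with hF₀
    have hF₀card : F₀.card < Fintype.card P := by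
      refine lt_of_le_of_lt Finset.card_image_le ?_
      rw [Finset.card_erase_of_mem (Finset.mem_univ _), Finset.card_univ]
      have : 0 < Fintype.card P := Fintype.card_pos_iff.mpr ⟨p₀⟩
      omega
    have hfree : ¬ StrongCopy P F₀ := fun hcopy => absurd hcopy.card_le (not_le.mpr hF₀card)
    obtain ⟨F, hF₀F, hF⟩ := exists_saturated_extension hfree
    -- the points outside the shell are completed by `F₀`
    have hcomp : ∀ x ∈ F, x ∉ F₀ → ∃ i, (x i).val < M ∨ k - M ≤ (x i).val := by
      intro x hxF hxF₀
      by_contra hcon
      push Not at hcon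
      apply hF.1
      have hord : ∀ q, q ≠ p₀ → (hh q ≤ x ↔ q ≤ p₀) ∧ (x ≤ hh q ↔ p₀ ≤ q) := by
        intro q hq
        have hne := hgne q hq
        constructor
        · rw [hg q p₀]
          constructor
          · intro hle i
            have h1 : (hh q i).val ≤ (x i).val := hle i
            have h2 := hcon i
            rw [hhv] at h1
            split_ifs at h1 <;> omega
          · intro hle i
            rw [Fin.le_def, hhv]
            have h2 := hcon i
            have h3 := hle i
            have h4 := hne i
            have h5 := hglt q i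
            split_ifs <;> omega
        · rw [hg p₀ q]
          constructor
          · intro hle i
            have h1 : (x i).val ≤ (hh q i).val := hle i
            have h2 := hcon i
            have h5 := hglt q i
            rw [hhv] at h1
            split_ifs at h1 <;> omega
          · intro hle i
            rw [Fin.le_def, hhv]
            have h2 := hcon i
            have h3 := hle i
            split_ifs <;> omega
      have hord2 : ∀ q r, (hh q ≤ hh r ↔ q ≤ r) := by
        intro q r
        rw [hg q r, Pi.le_def]
        apply forall_congr'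
        intro i
        rw [Fin.le_def, hhv, hhv]
        split_ifs <;> omega
      have hordF : ∀ q r : P, q ≤ r ↔ (if q = p₀ then x else hh q) ≤ (if r = p₀ then x else hh r) := by
        intro q r
        by_cases hq : q = p₀
        · by_cases hr : r = p₀
          · rw [if_pos hq, if_pos hr, hq, hr]
            simp
          · rw [if_pos hq, if_neg hr, (hord r hr).2, hq]
        · by_cases hr : r = p₀
          · rw [if_neg hq, if_pos hr, (hord q hq).1, hr]
          · rw [if_neg hq, if_neg hr, hord2]
      refine ⟨fun q => if q = p₀ then x else hh q, ?_, hordF, ?_⟩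
      · intro q r hqr
        simp only at hqr
        apply le_antisymm
        · rw [hordF, hqr]
        · rw [hordF, hqr]
      · intro q
        simp only
        by_cases hq : q = p₀
        · rw [if_pos hq]
          exact hxF
        · rw [if_neg hq]
          apply hF₀F
          rw [hF₀]
          exact Finset.mem_image_of_mem _ (Finset.mem_erase.mpr ⟨hq, Finset.mem_univ _⟩)
    have hsub : F ⊆ F₀ ∪ Finset.univ.filter
        (fun x : Grid d k => ∃ i, (x i).val < M ∨ k - M ≤ (x i).val) := by
      intro x hx
      rw [Finset.mem_union, Finset.mem_filter]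
      by_cases h0 : x ∈ F₀
      · exact Or.inl h0
      · exact Or.inr ⟨Finset.mem_univ _, hcomp x hx h0⟩
    have h1 := (sat_le hF).trans ((Finset.card_le_card hsub).trans (Finset.card_union_le _ _))
    have h2 := card_shell d k M
    have h3 : F₀.card ≤ Fintype.card P * k ^ (d - 1) :=
      hF₀card.le.trans (Nat.le_mul_of_pos_right _ hpow)
    calc sat P d k ≤ Fintype.card P * k ^ (d - 1) + d * (2 * M * k ^ (d - 1)) := by omega
      _ ≤ (M + (Fintype.card P + d * (2 * M))) * k ^ (d - 1) := by
        rw [add_mul, add_mul, mul_assoc d]
        omega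

end Helper57.GridSat
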